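import Pool.Agent.Work.MP_340ce7_lc.Main

/-! Edges at a given point of the circle: the offsets form a rational subspace. -/

namespace Pool.Agent.Work.MP_340ce7_lc

open Set

variable {D : Set ℤ → Prop}

def EdgeAt (D : Set ℤ → Prop) (γ c : ℝ) : Prop :=
  ∃ (Q : Set ℤ) (η : ℝ), 0 < η ∧ D Q ∧
    ∀ t : ℤ, (In (t * γ) (c - η) c → t ∈ Q) ∧ (In (t * γ) c (c + η) → t ∉ Q)

theorem int_gap {k : ℤ} (h1 : (0 : ℝ) < k) (h2 : (k : ℝ) < 1) : False := by
  have h3 : 0 < k := by exact_mod_cast h1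
  have h4 : k < 1 := by exact_mod_cast h2
  omega

theorem edgeAt_of_H (hD : Good1 D) {γ r : ℝ} (h : D {t : ℤ | H (t * γ + r)}) :
    EdgeAt D γ (-r) := by
  refine ⟨_, 1 / 2, by norm_num, hD.compl h, fun t => ⟨?_, ?_⟩⟩
  · rintro ⟨n, h1, h2⟩
    exact (not_H_iff _).2 ⟨n, by linarith, by linarith⟩
  · rintro ⟨n, h1, h2⟩ h3
    exact h3 ((H_iff _).2 ⟨n, by linarith, by linarith⟩)

theorem EdgeAt.neg (hD : Good1 D) {γ c : ℝ} (h : EdgeAt D γ c) : EdgeAt D γ (-c) := by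
  obtain ⟨Q, η, hη, hQ, h⟩ := h
  refine ⟨{t | -1 * t + 0 ∈ Qᶜ}, η, hη, hD.aff (-1) 0 (hD.compl hQ), fun t => ⟨?_, ?_⟩⟩
  · rintro ⟨n, h1, h2⟩
    exact (h _).2 ⟨-n, by push_cast; linarith, by push_cast; linarith⟩
  · rintro ⟨n, h1, h2⟩ h3
    exact h3 ((h _).1 ⟨-n, by push_cast; linarith, by push_cast; linarith⟩)

theorem EdgeAt.div (hD : Good1 D) {γ c : ℝ} (h : EdgeAt D γ c) {N : ℕ} (hN : 0 < N) :
    EdgeAt D γ (c / N) := by
  obtain ⟨Q, η, hη, hQ, h⟩ := h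
  have hN' : (0 : ℝ) < N := by exact_mod_cast hN
  refine ⟨{t | (N : ℤ) * t + 0 ∈ Q}, η / N, div_pos hη hN', hD.aff N 0 hQ, fun t => ⟨?_, ?_⟩⟩
  · rintro ⟨n, h1, h2⟩
    rw [← sub_div, div_lt_iff₀ hN'] at h1
    rw [lt_div_iff₀ hN'] at h2
    exact (h _).1 ⟨N * n, by push_cast; linarith, by push_cast; linarith⟩
  · rintro ⟨n, h1, h2⟩
    rw [div_lt_iff₀ hN'] at h1
    rw [← add_div, lt_div_iff₀ hN'] at h2
    exact (h _).2 ⟨N * n, by push_cast; linarith, by push_cast; linarith⟩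

theorem EdgeAt.trim (hD : Good1 D) {γ c : ℝ} (hF : Full D γ) (h : EdgeAt D γ c) :
    ∃ (Q : Set ℤ) (η : ℝ), 0 < η ∧ D Q ∧ (∀ t : ℤ, In (t * γ) (c - η) c → t ∈ Q) ∧
      ∀ t ∈ Q, ∃ n : ℤ, c - 1 / 8 < t * γ - n ∧ t * γ - n ≤ c := by
  obtain ⟨Q, η, hη, hQ, h⟩ := h
  obtain ⟨p, hp1, hp2⟩ := exists_rat_btwn (show c - 1 / 8 < c by linarith)
  have hμ : 0 < min η (1 / 8) := lt_min hη (by norm_num)
  obtain ⟨q, hq1, hq2⟩ := exists_rat_btwn (show c < c + min η (1 / 8) by linarith)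
  have m1 := min_le_left η (1 / 8)
  have m2 := min_le_right η (1 / 8)
  refine ⟨Q ∩ {t | In (t * γ) p q}, min η (c - p), lt_min hη (by linarith), hD.inter hQ
    (hF.arc hD (self_mem_Sp γ) (rat_mem_Sp γ p) (rat_mem_Sp γ q) (by linarith) (by linarith)),
    ?_, ?_⟩
  · rintro t ⟨n, h1, h2⟩
    have m3 := min_le_left η (c - p)
    have m4 := min_le_right η (c - p)
    exact ⟨(h t).1 ⟨n, by linarith, h2⟩, n, by linarith, by linarith⟩
  · rintro t ⟨ht, n, h1, h2⟩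
    exact ⟨n, by linarith, not_lt.1 fun h3 => (h t).2 ⟨n, h3, by linarith⟩ ht⟩

theorem EdgeAt.add (hD : Good1 D) {γ c c' : ℝ} (hγ : Irrational γ) (hF : Full D γ)
    (h : EdgeAt D γ c) (h' : EdgeAt D γ c') : EdgeAt D γ (c + c') := by
  obtain ⟨Q, η, hη, hQ, h1, h2⟩ := h.trim hD hF
  obtain ⟨Q', η', hη', hQ', h1', h2'⟩ := h'.trim hD hF
  have m1 := (min_le_left (min η η') (1 / 2)).trans (min_le_left η η')
  have m2 := (min_le_left (min η η') (1 / 2)).trans (min_le_right η η')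
  have m3 := min_le_right (min η η') (1 / 2)
  refine ⟨{t | ∃ u ∈ Q, 1 * t + -1 * u + 0 ∈ Q'}, min (min η η') (1 / 2),
    lt_min (lt_min hη hη') (by norm_num), hD.conv 1 (-1) 0 hQ hQ', fun t => ⟨?_, ?_⟩⟩
  · rintro ⟨n, a, b⟩
    obtain ⟨u, -, k, hu1, hu2⟩ := kron0 hγ (show t * γ - n - c' < c by linarith) finite_empty
    exact ⟨u, h1 u ⟨k, by linarith, hu2⟩,
      h1' _ ⟨n - k, by push_cast; linarith, by push_cast; linarith⟩⟩
  · rintro ⟨n, a, b⟩ ⟨u, hu, hu'⟩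
    obtain ⟨k, a1, a2⟩ := h2 u hu
    obtain ⟨k', b1, b2⟩ := h2' _ hu'
    push_cast at b1 b2
    exact int_gap (k := k + k' - n) (by push_cast; linarith) (by push_cast; linarith)

theorem nb_of_full (hD : Good1 D) {γ : ℝ} (hF : Full D γ) : Nb D γ := fun κ hκ => by
  obtain ⟨p, hp1, hp2⟩ := exists_rat_btwn (show (0 : ℝ) < min κ (1 / 8) from
    lt_min hκ (by norm_num))
  have m1 := min_le_left κ (1 / 8)
  have m2 := min_le_right κ (1 / 8)
  refine ⟨p, hp1, {t | In (t * γ) (-p) p}, hF.arc hD (self_mem_Sp γ)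
    (neg_mem (rat_mem_Sp γ p)) (rat_mem_Sp γ p) (by linarith) (by linarith), ?_, ?_⟩
  · rintro t ⟨n, hn⟩
    exact ⟨n, (abs_lt.1 hn).1, (abs_lt.1 hn).2⟩
  · rintro t ⟨n, h1, h2⟩
    exact ⟨n, abs_lt.2 ⟨by linarith, by linarith⟩⟩

theorem edgeAt_of_Sp (hD : Good1 D) {γ c : ℝ} (hF : Full D γ) (hc : c ∈ Sp γ) :
    EdgeAt D γ c := by
  simpa using edgeAt_of_H hD (hF γ (self_mem_Sp γ) _ (neg_mem hc))

theorem H_of_edge (hD : Good1 D) {γ c : ℝ} (hγ : Irrational γ) (hF : Full D γ)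
    (h : EdgeAt D γ c) : D {t : ℤ | H (t * γ + -c)} := by
  obtain ⟨Q', η', hη', hQ', h'⟩ := h.add hD hγ hF (edgeAt_of_Sp hD hF (c := 1 / 2)
    (by simpa using rat_mem_Sp γ (1 / 2)))
  obtain ⟨Q, η, hη, hQ, h⟩ := h
  have hpt : ∀ x : ℝ, D {t : ℤ | ∃ j : ℤ, (t : ℝ) * γ = x + j} := fun x =>
    hD.finite (by simpa using finite_on_wall {x} hγ)
  refine of_local hD hγ (nb_of_full hD hF) _ fun θ => ?_
  by_cases hw : ∃ l : ℤ, θ + -c = l / 2
  · obtain ⟨l, hl⟩ := hw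
    rcases Int.even_or_odd' l with ⟨j, hj | hj⟩
    · refine ⟨Qᶜ ∪ {t : ℤ | ∃ j : ℤ, (t : ℝ) * γ = c + j}, min η (1 / 2),
        lt_min hη (by norm_num), hD.union (hD.compl hQ) (hpt c), ?_⟩
      rintro t ⟨n, hn⟩
      rw [hj] at hl
      push_cast at hl
      have n1 := abs_lt.1 (hn.trans_le (min_le_left _ _))
      have n2 := abs_lt.1 (hn.trans_le (min_le_right _ _))
      have e : H (t * γ + -c) ↔ 0 ≤ t * γ - θ - n := by
        rw [← H_small (hn.trans_le (min_le_right _ _)), ← H_add_int (t * γ - θ - n) (n + j)]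
        refine iff_of_eq (congrArg H ?_)
        push_cast
        linarith
      refine Iff.trans ?_ e.symm
      constructor
      · rintro (h1 | ⟨k, hk⟩)
        · by_contra h2
          exact h1 ((h t).1 ⟨n + j, by push_cast; linarith, by push_cast; linarith⟩)
        · by_contra h2
          exact int_gap (k := n + j - k) (by push_cast; linarith) (by push_cast; linarith)
      · intro h1
        rcases h1.eq_or_lt with h2 | h2
        · exact Or.inr ⟨n + j, by push_cast; linarith⟩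
        · exact Or.inl ((h t).2 ⟨n + j, by push_cast; linarith, by push_cast; linarith⟩)
    · refine ⟨Q' \ {t : ℤ | ∃ j : ℤ, (t : ℝ) * γ = c + 1 / 2 + j}, min η' (1 / 2),
        lt_min hη' (by norm_num), hD.diff hQ' (hpt _), ?_⟩
      rintro t ⟨n, hn⟩
      rw [hj] at hl
      push_cast at hl
      have n1 := abs_lt.1 (hn.trans_le (min_le_left _ _))
      have n2 := abs_lt.1 (hn.trans_le (min_le_right _ _))
      have e : H (t * γ + -c) ↔ ¬ 0 ≤ t * γ - θ - n := by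
        rw [← H_small (hn.trans_le (min_le_right _ _)), ← H_add_half,
          ← H_add_int (t * γ - θ - n + 1 / 2) (n + j)]
        refine iff_of_eq (congrArg H ?_)
        push_cast
        linarith
      refine Iff.trans ?_ e.symm
      constructor
      · rintro ⟨h1, h2⟩ h3
        rcases h3.eq_or_lt with h4 | h4
        · exact h2 ⟨n + j, by push_cast; linarith⟩
        · exact (h' t).2 ⟨n + j, by push_cast; linarith, by push_cast; linarith⟩ h1
      · intro h1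
        refine ⟨(h' t).1 ⟨n + j, by push_cast; linarith, by push_cast; linarith⟩, ?_⟩
        rintro ⟨k, hk⟩
        exact int_gap (k := n + j - k) (by push_cast; linarith) (by push_cast; linarith)
  · obtain ⟨ε, hε, hiso⟩ := wall_isolated {0, 1 / 2} (θ + -c)
    refine ⟨{_t : ℤ | H (θ + -c)}, ε, hε, ?_, ?_⟩
    · by_cases h0 : H (θ + -c)
      · simpa only [h0, ofPred_true] using hD.univ
      · simpa only [h0, ofPred_false] using hD.empty
    · rintro t ⟨n, hn⟩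
      simp only [mem_ofPred_eq]
      rw [← H_sub_int (t * γ + -c) n]
      refine H_const fun l hl => hw ⟨l, ?_⟩
      have h1 : |(l : ℝ) / 2 - (θ + -c)| < ε := by
        refine (abs_sub_left_of_mem_uIcc hl).trans_lt ?_
        rwa [show (t : ℝ) * γ + -c - n - (θ + -c) = t * γ - θ - n by ring]
      rcases Int.even_or_odd' l with ⟨j, hj | hj⟩
      · have h2 : (l : ℝ) / 2 = 0 + j := by rw [hj]; push_cast; ring
        rw [h2] at h1 ⊢
        exact (hiso 0 (by simp) j h1).symm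
      · have h2 : (l : ℝ) / 2 = 1 / 2 + j := by rw [hj]; push_cast; ring
        rw [h2] at h1 ⊢
        exact (hiso (1 / 2) (by simp) j h1).symm

/-- The offsets available in a full direction form a subspace. -/
theorem exists_sub (hD : Good1 D) {γ : ℝ} (hγ : Irrational γ) (hF : Full D γ) :
    ∃ E : Submodule ℚ ℝ, (1 : ℝ) ∈ E ∧ γ ∈ E ∧ (∀ r, r ∈ E ↔ EdgeAt D γ r) ∧
      ∀ r, r ∈ E ↔ D {t : ℤ | H (t * γ + r)} := by
  let G : AddSubgroup ℝ :=
    { carrier := {c | EdgeAt D γ c}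
      add_mem' := fun h h' => EdgeAt.add hD hγ hF h h'
      zero_mem' := edgeAt_of_Sp hD hF (zero_mem _)
      neg_mem' := fun h => EdgeAt.neg hD h }
  refine ⟨{ carrier := {c | EdgeAt D γ c}
            add_mem' := fun h h' => EdgeAt.add hD hγ hF h h'
            zero_mem' := edgeAt_of_Sp hD hF (zero_mem _)
            smul_mem' := fun q c h => ?_ }, edgeAt_of_Sp hD hF (one_mem_Sp γ),
    edgeAt_of_Sp hD hF (self_mem_Sp γ), fun r => Iff.rfl, fun r => ⟨fun h => ?_, fun h => ?_⟩⟩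
  · have h1 : EdgeAt D γ (q.num • c) := G.zsmul_mem h q.num
    have h2 := h1.div hD q.den_pos
    have e : (q.num • c) / (q.den : ℝ) = q • c := by
      rw [zsmul_eq_mul, Rat.smul_def, Rat.cast_def]
      ring
    rwa [e] at h2
  · simpa only [neg_neg] using H_of_edge hD hγ hF (EdgeAt.neg hD h)
  · have h1 := (edgeAt_of_H hD h).neg hD
    rw [neg_neg] at h1
    exact h1

/-- The offset lemma. -/
theorem edge_of_dep {A : Set ℝ} (hA : Ind A) (hD : Good1 D) {A0 : Finset ℝ}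
    (h0 : (↑A0 : Set ℝ) ⊆ A) (hF : ∀ β ∈ A0, Full D β) {α : ℝ} (hα : α ∈ A0) {Φ Y : Set ℤ}
    (hΦ : Φ.Finite) (hY : D Y) {c ε ρ : ℝ} (hε : 0 < ε) (hρ : 0 < ρ)
    (h : ∀ t : ℤ, t ∉ Φ → (∀ β ∈ A0, β ≠ α → Near (t * β) ρ) →
      (In (t * α) (c - ε) c → t ∈ Y) ∧ (In (t * α) c (c + ε) → t ∉ Y)) : EdgeAt D α c := by
  classical
  obtain ⟨p, hp1, hp2⟩ := exists_rat_btwn (show (0 : ℝ) < min ρ (1 / 8) from
    lt_min hρ (by norm_num))
  have hμ : 0 < min ε (1 / 8) := lt_min hε (by norm_num)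
  obtain ⟨a, ha1, ha2⟩ := exists_rat_btwn (show c - min ε (1 / 8) < c by linarith)
  obtain ⟨b, hb1, hb2⟩ := exists_rat_btwn (show c < c + min ε (1 / 8) by linarith)
  have m1 := min_le_left ε (1 / 8)
  have m2 := min_le_right ε (1 / 8)
  have m3 := min_le_left ρ (1 / 8)
  have m4 := min_le_right ρ (1 / 8)
  have m5 := min_le_left (c - a) (1 / 4)
  have m6 := min_le_right (c - a) (1 / 4)
  have hbox : D {u : ℤ | ∀ β ∈ (↑(A0.erase α) : Set ℝ), In (u * β) (-p) p} :=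
    hD.all (A0.erase α).finite_toSet fun β hβ => (hF β (Finset.mem_of_mem_erase hβ)).arc hD
      (self_mem_Sp β) (neg_mem (rat_mem_Sp β p)) (rat_mem_Sp β p) (by linarith) (by linarith)
  have hnear : ∀ u : ℤ, (∀ β ∈ (↑(A0.erase α) : Set ℝ), In (u * β) (-p) p) →
      ∀ β ∈ A0, β ≠ α → Near (u * β) ρ := fun u hu β hβ hne => by
    obtain ⟨n, h1, h2⟩ := hu β (Finset.mem_erase.2 ⟨hne, hβ⟩)
    exact ⟨n, abs_lt.2 ⟨by linarith, by linarith⟩⟩
  have hZ := hD.inter (hD.diff hY (hD.finite hΦ)) (hD.inter ((hF α hα).arc hD (self_mem_Sp α)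
    (rat_mem_Sp α a) (rat_mem_Sp α b) (by linarith) (by linarith)) hbox)
  have hW : D {w : ℤ | In (w * α) (-(1 / 4)) 0} := (hF α hα).arc hD (self_mem_Sp α)
    (by simpa using rat_mem_Sp α (-(1 / 4))) (zero_mem _) (by norm_num) (by norm_num)
  refine ⟨_, min (c - a) (1 / 4), lt_min (by linarith) (by norm_num), hD.conv 1 (-1) 0 hZ hW,
    fun t => ⟨?_, ?_⟩⟩
  · rintro ⟨n, h1, h2⟩
    obtain ⟨u, hu, hk⟩ := kron1 hA A0 h0 (fun β => if β = α then (t * α - n + c) / 2 else 0)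
      (δ := min p ((c - (t * α - n)) / 2)) (lt_min hp1 (by linarith)) hΦ
    obtain ⟨k, hk1⟩ := hk α hα
    rw [if_pos rfl] at hk1
    have k1 := abs_lt.1 (hk1.trans_le (min_le_right _ _))
    have hb : ∀ β ∈ (↑(A0.erase α) : Set ℝ), In (u * β) (-p) p := fun β hβ => by
      obtain ⟨j, hj⟩ := hk β (Finset.mem_of_mem_erase hβ)
      rw [if_neg (Finset.mem_erase.1 hβ).1, sub_zero] at hj
      exact ⟨j, abs_lt.1 (hj.trans_le (min_le_left _ _))⟩
    exact ⟨u, ⟨⟨(h u hu (hnear u hb)).1 ⟨k, by linarith, by linarith⟩, hu⟩,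
      ⟨k, by linarith, by linarith⟩, hb⟩, n - k, by push_cast; linarith, by push_cast; linarith⟩
  · rintro ⟨n, h1, h2⟩ ⟨u, ⟨⟨hu1, hu2⟩, ⟨k, k1, k2⟩, hb⟩, k', k3, k4⟩
    have k5 : u * α - k ≤ c :=
      not_lt.1 fun h3 => (h u hu2 (hnear u hb)).2 ⟨k, h3, by linarith⟩ hu1
    push_cast at k3 k4
    exact int_gap (k := k + k' - n) (by push_cast; linarith) (by push_cast; linarith)

end Pool.Agent.Work.MP_340ce7_lc
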