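import Pool.Agent.Work.MP_340ce7_lc.Arc.A

/-! The steps of the earlier development with arbitrary offsets. -/

namespace Pool.Agent.Work.MP_340ce7_lc

open Set

variable {A : Set ℝ} {P P' : ∀ ι : Type, Set (ι → ℤ) → Prop} {ι : Type}

theorem fullK_of_basic {D : Set ℤ → Prop} (hD : Good1 D) {γ : ℝ} {E : Submodule ℚ ℝ}
    (h1 : (1 : ℝ) ∈ E) (hγ : γ ∈ E) (h : ∀ r ∈ E, D {t : ℤ | H (t * γ + r)}) :
    ∀ β ∈ Sp γ, ∀ r ∈ E, D {t : ℤ | H (t * β + r)} := by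
  intro β hβ r hr
  have hβE : β ∈ E := by
    obtain ⟨p, q, rfl⟩ := mem_Sp.1 hβ
    exact add_mem (by simpa using rat_mul_mem h1 p) (rat_mul_mem hγ q)
  obtain ⟨N, hN, a, b, hab⟩ := Full_denom hβ
  have hZ : ∀ s : ℤ, D {u : ℤ | b * u + 0 ∈ {t : ℤ | H (t * γ + (s * β + r))}} := fun s =>
    hD.aff b 0 (h _ (E.add_mem (by simpa using rat_mul_mem hβE (s : ℚ)) hr))
  have hcalc : ∀ u s : ℤ, H (((N * u + s : ℤ) : ℝ) * β + r) ↔
      H (((b * u + 0 : ℤ) : ℝ) * γ + (s * β + r)) := by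
    intro u s
    rw [← H_add_int (((b * u + 0 : ℤ) : ℝ) * γ + (s * β + r)) (u * a)]
    refine iff_of_eq (congrArg H ?_)
    push_cast
    linear_combination (u : ℝ) * hab
  have e : {t : ℤ | H (t * β + r)} = {t : ℤ | ∃ s ∈ Ico 0 N,
      ∃ u ∈ {u : ℤ | b * u + 0 ∈ {t : ℤ | H (t * γ + (s * β + r))}},
        1 * t + -N * u + 0 ∈ ({s} : Set ℤ)} := by
    ext t
    simp only [mem_ofPred_eq, mem_singleton_iff]
    constructor
    · intro ht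
      have h1 : N * (t / N) + t % N = t := Int.mul_ediv_add_emod t N
      refine ⟨t % N, ⟨Int.emod_nonneg t hN.ne', Int.emod_lt_of_pos t hN⟩, t / N,
        (hcalc _ _).1 (by rwa [h1]), by linarith only [h1]⟩
    · rintro ⟨s, -, u, hu, hs⟩
      have h1 : t = N * u + s := by linarith
      rw [h1]
      exact (hcalc _ _).2 hu
  rw [e]
  exact hD.ex (finite_Ico 0 N) fun s _ => hD.conv 1 (-N) 0 (hZ s) (hD.single s)

theorem det_subK (hP : Good P) {B : Set ℝ} {K : ℝ → Submodule ℚ ℝ}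
    (hB : ∀ α ∈ B, ∀ β ∈ Sp α, ∀ r ∈ K α, D1 P {t : ℤ | H (t * β + r)}) [Finite ι]
    {X : Set (ι → ℤ)} (hX : Det B K ι X) : P ι X := by
  obtain ⟨N, E, F, hN, hE, hF, hok, h⟩ := hX
  have hN' : (0 : ℤ) < N := by exact_mod_cast hN
  have hM : D1 P {t | (N : ℤ) ∣ t} := by
    have := hP.good1.conv 1 (-N) 0 hP.good1.univ (hP.good1.single 0)
    refine Eq.mp (congrArg _ (Set.ext fun t => ?_)) this
    simp [add_neg_eq_zero, Dvd.dvd]
  refine hP.of_finite (S := (fun p : ι × ℤ => {x | (N : ℤ) ∣ x p.1 - p.2}) ''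
    ((univ : Set ι) ×ˢ Ico (0 : ℤ) N) ∪ ((fun e : Fu ι × ℚ => {x | e.1 (cz x) = e.2}) '' E ∪
      (fun f : Frm ι => {x | H (f.ev (cz x))}) '' F))
    (((finite_univ.prod (finite_Ico _ _)).image _).union ((hE.image _).union (hF.image _))) ?_
    fun x x' hx => h x x' ⟨fun i => ?_, fun e he => hx _ (Or.inr (Or.inl ⟨e, he, rfl⟩)),
      fun f hf => hx _ (Or.inr (Or.inr ⟨f, hf, rfl⟩))⟩
  · rintro _ (⟨p, -, rfl⟩ | ⟨e, -, rfl⟩ | ⟨f, hf, rfl⟩)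
    · exact hP.d1 hM ((IsAff.var p.1).sub (IsAff.const p.2))
    · exact hP.eqn e.1 e.2
    · obtain ⟨D, hD, g, hg, hx⟩ := den_aff f.b
      refine Eq.mp (congrArg _ (Set.ext fun x => ?_)) (hP.d1 (hB _ (hok f hf).1 _
        (rat_mul_mem (self_mem_Sp f.α) (D : ℚ)⁻¹) _ (hok f hf).2) hg)
      have h1 : (D : ℝ) ≠ 0 := by exact_mod_cast hD.ne'
      have h2 : (g x : ℝ) = D * (f.b (cz x) : ℝ) := by exact_mod_cast hx x
      change H _ ↔ H _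
      rw [h2, Frm.ev]
      push_cast
      rw [mul_mul_mul_comm, mul_inv_cancel₀ h1, one_mul]
  · have h1 := (hx _ (Or.inl ⟨(i, x i % N), ⟨trivial, Int.emod_nonneg _ hN'.ne',
      Int.emod_lt_of_pos _ hN'⟩, rfl⟩)).1 (Int.dvd_self_sub_emod)
    obtain ⟨n, hn⟩ := h1.sub (Int.dvd_self_sub_emod (x := x i))
    rw [sub_sub_sub_cancel_right] at hn
    exact ⟨n, by simp only [cz]; exact_mod_cast hn⟩

theorem tameCl_top (hdet : ∀ (ι : Type) [Finite ι] (X : Set (ι → ℤ)), P ι X →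
    Det A (fun _ => ⊤) ι X) : TameCl A (D1 P) := by
  intro Y hY
  obtain ⟨N, hN, A0, W, Φ, h1, h2, h3, _⟩ :=
    tame_of_det (K := fun _ => ⊤) (fun α _ => Submodule.mem_top) (Y := Y) (hdet Unit _ hY)
  exact ⟨N, hN, A0, W, Φ, h1, h2, h3⟩

theorem line_mem (hP : Good P) [Finite ι] {X : Set (ι → ℤ)} (hX : P ι X) (z v : ι → ℤ) :
    D1 P {t | (fun i => z i + t * v i) ∈ X} :=
  hP.aff (κ := Unit) (fun t i => z i + t () * v i)
    (fun i => by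
      simpa only [mul_comm] using (IsAff.const (z i)).add ((IsAff.var ()).const_mul (v i))) hX

theorem off_planeK (hA : Ind A) (hP : Good P) (hcl : TameCl A (D1 P)) [Finite ι]
    {X : Set (ι → ℤ)} (hX : P ι X) {N : ℕ} {E : Set (Fu ι × ℚ)} {F : Set (Frm ι)}
    (hE : E.Finite) (hF : F.Finite) (hok : ∀ f ∈ F, f.α ∈ A)
    (hd : ∀ x x', Agree N E F (cz x) (cz x') → x ∈ X → x' ∈ X) {x x' : ι → ℤ}
    (h1 : Cong N (cz x) (cz x')) (h2 : ∀ f ∈ F, ∃ n : ℤ, f.b (cz x') - f.b (cz x) = n)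
    (h3 : ∀ e ∈ E, e.1 ≠ 0 → e.1 (cz x) ≠ e.2 ∧ e.1 (cz x') ≠ e.2)
    (h4 : ∀ f ∈ F, f.b ≠ 0 → ∀ l : ℤ, f.ev (cz x) ≠ l / 2 ∧ f.ev (cz x') ≠ l / 2)
    (h5 : ∀ f ∈ F, Full (D1 P) f.α → (H (f.ev (cz x)) ↔ H (f.ev (cz x')))) (hx : x ∈ X) :
    x' ∈ X := by
  classical
  by_contra hx'
  have ev : cz (fun i => x' i - x i) = cz x' - cz x := by
    funext i
    simp [cz]
  obtain ⟨G, Φ, hΦ, hG, hΦ', hq⟩ := line hE hF hd x (fun i => x' i - x i)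
    (fun i => by
      obtain ⟨n, hn⟩ := h1 i
      refine ⟨n, ?_⟩
      simp only [cz] at hn
      exact_mod_cast hn)
    (fun f hf => by rw [ev, map_sub]; exact h2 f hf)
  have e0 : (fun i => x i + 0 * (x' i - x i)) = x := by
    funext i
    ring
  have e1 : (fun i => x i + 1 * (x' i - x i)) = x' := by
    funext i
    ring
  have h0 : ∀ q ∈ G, q.1 ∈ G.image Prod.fst := fun q hq => Finset.mem_image_of_mem _ hq
  have hq' : ∀ q ∈ G, ∃ f ∈ F, q.1 = f.α ∧ (q.2.1 ≠ 0 → f.b ≠ 0) ∧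
      q.2.1 * (((0 : ℤ) : ℝ) * q.1) + q.2.2 = f.ev (cz x) ∧
      q.2.1 * (((1 : ℤ) : ℝ) * q.1) + q.2.2 = f.ev (cz x') := by
    intro q hq0
    obtain ⟨f, hf, a1, a2, a3⟩ := hq q hq0
    refine ⟨f, hf, a1, fun h hb => h ?_, by simp [a3], ?_⟩
    · rw [hb, LinearMap.zero_apply] at a2
      exact_mod_cast a2.symm
    · rw [ev, map_sub] at a2
      have a4 : (q.2.1 : ℝ) = f.b (cz x') - f.b (cz x) := by exact_mod_cast a2.symm
      rw [a3, a4, a1]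
      simp only [Frm.ev]
      push_cast
      ring
  obtain ⟨α, hα, hαB, hdep⟩ := switch hG h0 {α | Full (D1 P) α} (t0 := 0) (t1 := 1)
    (fun h => by
      obtain ⟨e, he, a1, a2⟩ := hΦ' 0 h
      rw [e0] at a2
      exact (h3 e he a1).1 a2)
    (fun h => by
      obtain ⟨e, he, a1, a2⟩ := hΦ' 1 h
      rw [e1] at a2
      exact (h3 e he a1).2 a2)
    (by simpa only [mem_ofPred_eq, e0] using hx) (by simpa only [mem_ofPred_eq, e1] using hx')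
    (fun q hq0 hm l => by
      obtain ⟨f, hf, _, a2, a3, _⟩ := hq' q hq0
      rw [a3]
      exact (h4 f hf (a2 hm) l).1)
    (fun q hq0 hm l => by
      obtain ⟨f, hf, _, a2, _, a4⟩ := hq' q hq0
      rw [a4]
      exact (h4 f hf (a2 hm) l).2)
    (fun q hq0 hB => by
      obtain ⟨f, hf, a1, _, a3, a4⟩ := hq' q hq0
      rw [a3, a4]
      exact h5 f hf (a1 ▸ hB))
  obtain ⟨W, hW, _⟩ := tame_of_pat hG h0
  have hsub : (↑(G.image Prod.fst) : Set ℝ) ⊆ A := by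
    intro β hβ
    obtain ⟨q, hq0, rfl⟩ := Finset.mem_image.1 (Finset.mem_coe.1 hβ)
    obtain ⟨f, hf, a1, _⟩ := hq' q hq0
    rw [a1]
    exact hok f hf
  exact hαB (full_of_dep hA hP.good1 hcl hsub hα hΦ (line_mem hP hX _ _) hW hdep)

/-- Points off the equations and off the walls. -/
def Off (E : Set (Fu ι × ℚ)) (F : Set (Frm ι)) (x : ι → ℤ) : Prop :=
  (∀ e ∈ E, e.1 ≠ 0 → e.1 (cz x) ≠ e.2) ∧ ∀ f ∈ F, f.b ≠ 0 → ∀ l : ℤ, f.ev (cz x) ≠ l / 2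

/-- The critical hyperplanes. -/
theorem exists_crit {E : Set (Fu ι × ℚ)} {F : Set (Frm ι)} (hE : E.Finite) (hF : F.Finite)
    (hi : ∀ f ∈ F, Irrational f.α) : ∃ C : Set (Fu ι × ℚ), C.Finite ∧ (∀ e ∈ C, e.1 ≠ 0) ∧
      ∀ x, Off E F x ↔ ∀ e ∈ C, e.1 (cz x) ≠ e.2 := by
  refine ⟨{e | e.1 ≠ 0 ∧
    e ∈ E ∪ ⋃ f ∈ F, (fun s => (f.b, s)) '' {s : ℚ | ∃ l : ℤ, (s : ℝ) * f.α + f.r = l / 2}},
    (hE.union (hF.biUnion fun f hf => (crit_subsingleton (hi f hf)).finite.image _)).subset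
      fun e he => he.2, fun e he => he.1, fun x => ⟨?_, fun hx => ?_⟩⟩
  · rintro ⟨h1, h2⟩ e ⟨h0, he | he⟩
    · exact h1 e he h0
    · simp only [mem_iUnion] at he
      obtain ⟨f, hf, s, ⟨l, hl⟩, rfl⟩ := he
      intro h3
      refine h2 f hf h0 l ?_
      rw [Frm.ev, show f.b (cz x) = s from h3]
      exact hl
  · refine ⟨fun e he h => hx e ⟨h, Or.inl he⟩, fun f hf hb l hl =>
      hx (f.b, f.b (cz x)) ⟨hb, Or.inr ?_⟩ rfl⟩
    simp only [mem_iUnion]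
    exact ⟨f, hf, f.b (cz x), ⟨l, hl⟩, rfl⟩

/-- It suffices to treat the part of a set off finitely many hyperplanes. -/
theorem split_planes (hP : Good P) (hP' : Good P') [Finite ι]
    (ih : ∀ (κ : Type) [Finite κ], Nat.card κ < Nat.card ι → ∀ X : Set (κ → ℤ), P κ X → P' κ X)
    {C : Set (Fu ι × ℚ)} (hC : C.Finite) (h0 : ∀ e ∈ C, e.1 ≠ 0) {X X1 : Set (ι → ℤ)}
    (hX : P ι X) (hX1 : P' ι X1) (h : ∀ x, (∀ e ∈ C, e.1 (cz x) ≠ e.2) → (x ∈ X ↔ x ∈ X1)) :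
    P' ι X := by
  have e : X = ((⋂ e ∈ C, {x | e.1 (cz x) = e.2}ᶜ) ∩ X1) ∪
      ⋃ e ∈ C, X ∩ {x | e.1 (cz x) = e.2} := by
    ext x
    simp only [mem_union, mem_inter_iff, mem_iInter, mem_iUnion, mem_compl_iff, mem_ofPred_eq]
    constructor
    · intro hx
      by_cases hg : ∀ e ∈ C, e.1 (cz x) ≠ e.2
      · exact Or.inl ⟨hg, (h x hg).1 hx⟩
      · push Not at hg
        obtain ⟨e, he, h1⟩ := hg
        exact Or.inr ⟨e, he, hx, h1⟩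
    · rintro (⟨hg, hx⟩ | ⟨e, _, hx, _⟩)
      · exact (h x hg).2 hx
      · exact hx
  rw [e]
  exact hP'.union (hP'.inter (hP'.biInter hC fun e _ => hP'.compl (hP'.eqn _ _)) hX1)
    (hP'.biUnion hC fun e he => on_plane hP hP' ih (h0 e he) e.2 hX)

end Pool.Agent.Work.MP_340ce7_lc
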