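import Pool.Agent.Work.MP_340ce7_lc.Arc.B

/-! Moving in one direction without crossing good walls. -/

namespace Pool.Agent.Work.MP_340ce7_lc

open Set Filter Topology

variable {A : Set ℝ} {P P' : ∀ ι : Type, Set (ι → ℤ) → Prop} {ι : Type}

theorem cut_at {f : ℝ → Prop} {a b : ℝ} (hab : a < b) (ha : ∀ᶠ x in 𝓝 a, f x)
    (hb : ∀ᶠ x in 𝓝 b, ¬ f x) (h : ∀ c, ∃ ε : ℝ, 0 < ε ∧
      (∀ x ∈ Ioo (c - ε) c, ∀ y ∈ Ioo (c - ε) c, f x → f y) ∧
        ∀ x ∈ Ioo c (c + ε), ∀ y ∈ Ioo c (c + ε), f x → f y) :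
    ∃ c ∈ Icc a b, ∃ ε : ℝ, 0 < ε ∧ (∀ x ∈ Ioo (c - ε) c, f x) ∧
      ∀ x ∈ Ioo c (c + ε), ¬ f x := by
  have h1 := isLUB_csSup (s := {x | x ≤ b ∧ ∀ᶠ y in 𝓝 x, f y}) ⟨a, hab.le, ha⟩
    ⟨b, fun x hx => hx.1⟩
  generalize sSup {x | x ≤ b ∧ ∀ᶠ y in 𝓝 x, f y} = c at h1
  obtain ⟨ε, hε, h2, h3⟩ := h c
  have h4 : ∀ x ∈ Icc (c - ε) c, ∃ᶠ y in 𝓝 x, y ∈ Ioo (c - ε) c := fun x hx =>
    mem_closure_iff_frequently.1 (closure_Ioo (sub_lt_self c hε).ne ▸ hx)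
  have h5 : ∀ x ∈ Ioo (c - ε) c, f x := fun x hx => by
    obtain ⟨z, hz, h6⟩ := h1.exists_between (sub_lt_self c hε)
    obtain ⟨y, h7, h8⟩ := ((h4 z ⟨h6.1.le, h6.2⟩).and_eventually hz.2).exists
    exact h2 y h7 x hx h8
  refine ⟨c, ⟨h1.1 ⟨hab.le, ha⟩, h1.2 fun x hx => hx.1⟩, ε, hε, h5, fun x hx hf => ?_⟩
  have h6 : c < b := lt_of_le_of_ne (h1.2 fun x hx => hx.1) fun e => by
    obtain ⟨y, h7, h8⟩ := ((h4 c ⟨(sub_lt_self c hε).le, le_rfl⟩).and_eventually (e ▸ hb)).exists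
    exact h8 (h5 y h7)
  obtain ⟨z, h7, h8⟩ := exists_between (lt_min h6 (lt_add_of_pos_right c hε))
  refine h7.not_ge (h1.1 ⟨(h8.trans_le (min_le_left _ _)).le, ?_⟩)
  filter_upwards [Ioo_mem_nhds h7 (h8.trans_le (min_le_right _ _))] with y hy
  exact h3 x hx y hy hf

theorem ev_line (f : Frm ι) (z v : ι → ℤ) (t : ℤ) :
    f.ev (cz fun i => z i + t * v i) = (f.b (cz v) : ℝ) * (t * f.α) + f.ev (cz z) := by
  rw [Det_cz, Frm.ev, Frm.ev, map_add, map_smul, smul_eq_mul]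
  push_cast
  ring

theorem fin_line {E : Set (Fu ι × ℚ)} {F : Set (Frm ι)} (hE : E.Finite) (hF : F.Finite)
    (hi : ∀ f ∈ F, Irrational f.α) {z : ι → ℤ} (hz : Off E F z) (v : ι → ℤ) :
    {t : ℤ | ¬ Off E F fun i => z i + t * v i}.Finite := by
  obtain ⟨C, hC, -, h⟩ := exists_crit hE hF hi
  refine (hC.biUnion (t := fun e => {t : ℤ | e.1 (cz fun i => z i + t * v i) = e.2})
    fun e he => Set.Subsingleton.finite ?_).subset fun t ht => ?_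
  · intro t h1 t' h2
    simp only [mem_ofPred_eq, Det_cz, map_add, map_smul, smul_eq_mul] at h1 h2
    have h0 : e.1 (cz v) ≠ 0 := fun h3 => (h z).1 hz e he (by rw [← h1, h3]; ring)
    have h4 : (t : ℚ) * e.1 (cz v) = t' * e.1 (cz v) := by linarith
    exact_mod_cast mul_right_cancel₀ h0 h4
  · simp only [mem_ofPred_eq, h] at ht
    push Not at ht
    obtain ⟨e, he, h1⟩ := ht
    exact mem_biUnion he h1

theorem agree_of_off {M : ℕ} {E : Set (Fu ι × ℚ)} {F : Set (Frm ι)} {x x' : ι → ℤ}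
    (hx : Off E F x) (hx' : Off E F x') (hc : Cong M (cz x) (cz x'))
    (h : ∀ f ∈ F, (H (f.ev (cz x)) ↔ H (f.ev (cz x')))) : Agree M E F (cz x) (cz x') := by
  refine ⟨hc, fun e he => ?_, h⟩
  by_cases h0 : e.1 = 0
  · rw [h0, LinearMap.zero_apply, LinearMap.zero_apply]
  · exact iff_of_false (hx.1 e he h0) (hx'.1 e he h0)

theorem cong_line {M : ℕ} (z : ι → ℤ) {v : ι → ℤ} (hv : ∀ i, (M : ℤ) ∣ v i) (t : ℤ) :
    Cong M (cz z) (cz fun i => z i + t * v i) := fun i => by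
  obtain ⟨k, hk⟩ := hv i
  exact ⟨t * k, by simp only [cz, hk]; push_cast; ring⟩

theorem loc_H {m g c : ℝ} (h : m ≠ 0 → ∀ l : ℤ, m * c + g ≠ l / 2) :
    ∀ᶠ x in 𝓝 c, (H (m * x + g) ↔ H (m * c + g)) := by
  by_cases hm : m = 0
  · exact Eventually.of_forall fun x => by rw [hm, zero_mul, zero_mul]
  · exact ((tendsto_id.const_mul _).add_const _).eventually (Switch_H (h hm))

theorem loc0 {E : Set (Fu ι × ℚ)} {F : Set (Frm ι)} (hF : F.Finite) {z : ι → ℤ}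
    (hz : Off E F z) (v : ι → ℚ) :
    ∀ᶠ s in 𝓝 (0 : ℝ), ∀ f ∈ F, (H ((f.b v : ℝ) * s + f.ev (cz z)) ↔ H (f.ev (cz z))) := by
  refine (eventually_all_finite hF).2 fun f hf => ?_
  have := loc_H (m := (f.b v : ℝ)) (g := f.ev (cz z)) (c := 0) fun hm l => by
    rw [mul_zero, zero_add]
    refine hz.2 f hf (fun h0 => hm ?_) l
    rw [h0, LinearMap.zero_apply, Rat.cast_zero]
  simpa only [mul_zero, zero_add] using this

/-- The segment lemma. -/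
theorem seg (hA : Ind A) (hP : Good P) [Finite ι] {X : Set (ι → ℤ)} (hX : P ι X) {M : ℕ}
    {E : Set (Fu ι × ℚ)} {F : Set (Frm ι)} (hE : E.Finite) (hF : F.Finite) {A0 : Finset ℝ}
    (h0 : (↑A0 : Set ℝ) ⊆ A) (hA0 : ∀ f ∈ F, f.α ∈ A0) (hfull : ∀ β ∈ A0, Full (D1 P) β)
    (hd : ∀ x x', Agree M E F (cz x) (cz x') → x ∈ X → x' ∈ X) {α : ℝ} (hα : α ∈ A0)
    {K : Submodule ℚ ℝ} (h1 : (1 : ℝ) ∈ K) (hαK : α ∈ K)
    (hK : ∀ c, EdgeAt (D1 P) α c → c ∈ K) {z z' v : ι → ℤ} (hz : Off E F z) (hz' : Off E F z')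
    (hc : Cong M (cz z) (cz z')) (hv : ∀ i, (M : ℤ) ∣ v i)
    (hm : ∀ f ∈ F, ∃ k : ℤ, f.b (cz v) = k) {s : ℝ} (hs : 0 < s)
    (c1 : ∀ f ∈ F, f.α ≠ α → (H (f.ev (cz z)) ↔ H (f.ev (cz z'))))
    (c2 : ∀ f ∈ F, f.α = α →
      ∀ᶠ x in 𝓝 s, (H ((f.b (cz v) : ℝ) * x + f.ev (cz z)) ↔ H (f.ev (cz z'))))
    (c3 : ∀ f ∈ F, f.α = α → f.r ∈ K → (f.b (cz v) : ℝ) ≠ 0 → ∀ θ ∈ Icc 0 s, ∀ l : ℤ,
      (f.b (cz v) : ℝ) * θ + f.ev (cz z) ≠ l / 2) (hzX : z ∈ X) : z' ∈ X := by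
  classical
  by_contra hn
  choose! mz hmz using hm
  have hmr : ∀ f ∈ F, (f.b (cz v) : ℝ) = mz f := fun f hf => by rw [hmz f hf, Rat.cast_intCast]
  let y : ℤ → ι → ℤ := fun t i => z i + t * v i
  let pat : ℝ → Frm ι → Prop := fun θ f =>
    H ((f.b (cz v) : ℝ) * (if f.α = α then θ else 0) + f.ev (cz z))
  let Ψ : ℝ → Prop := fun θ => ∃ t : ℤ, Off E F (y t) ∧ y t ∈ X ∧
    ∀ f ∈ F, (H (f.ev (cz (y t))) ↔ pat θ f)
  have hΨ : ∀ (θ : ℝ) (x : ι → ℤ), Off E F x → Cong M (cz z) (cz x) →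
      (∀ f ∈ F, (H (f.ev (cz x)) ↔ pat θ f)) → Ψ θ → x ∈ X := by
    rintro θ x a1 a2 a3 ⟨t, b1, b2, b3⟩
    exact hd _ _ (agree_of_off b1 a1 ((cong_line z hv t).symm.trans a2)
      fun f hf => (b3 f hf).trans (a3 f hf).symm) b2
  have hf : ∀ x x' : ℝ, (∀ f ∈ F, f.α = α → (H ((f.b (cz v) : ℝ) * x + f.ev (cz z)) ↔
      H ((f.b (cz v) : ℝ) * x' + f.ev (cz z)))) → Ψ x → Ψ x' := by
    rintro x x' a ⟨t, b1, b2, b3⟩
    refine ⟨t, b1, b2, fun f hf => (b3 f hf).trans ?_⟩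
    by_cases e : f.α = α
    · simp only [pat, if_pos e]
      exact a f hf e
    · simp only [pat, if_neg e]
  have y0 : y 0 = z := by
    funext i
    simp [y]
  have hΨ0 : Ψ 0 := ⟨0, y0.symm ▸ hz, y0.symm ▸ hzX, fun f _ => by
    simp only [pat, y0, ite_self, mul_zero, zero_add]⟩
  let G : Finset (ℝ × ℤ × ℝ) := hF.toFinset.image fun f => (f.α, mz f, f.ev (cz z))
  have hR : ∀ x x' : ℝ, Switch_R G α x x' → Ψ x → Ψ x' := fun x x' a => hf x x' fun f hf e => by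
    rw [hmr f hf]
    exact a (f.α, mz f, f.ev (cz z)) (Finset.mem_image_of_mem _ (hF.mem_toFinset.2 hf)) e
  obtain ⟨c, hcI, ε, hε, h4, h5⟩ := cut_at (f := Ψ) hs
    ((loc0 hF hz (cz v)).mono fun x hx => hf 0 x (fun f hf _ => by
      rw [mul_zero, zero_add]; exact (hx f hf).symm) hΨ0)
    (((eventually_all_finite hF).2 fun f hf => eventually_imp_distrib_left.2 (c2 f hf)).mono
      fun x hx h6 => hn (hΨ x z' hz' hc (fun f hf => by
        by_cases e : f.α = α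
        · simp only [pat, if_pos e]
          exact (hx f hf e).symm
        · simp only [pat, if_neg e, mul_zero, zero_add]
          exact (c1 f hf e).symm) h6))
    fun c => (Switch_side G α c).imp fun ε hε => ⟨hε.1,
      fun x hx y hy => hR x y (hε.2.1 x hx y hy), fun x hx y hy => hR x y (hε.2.2 x hx y hy)⟩
  obtain ⟨ρ, hρ, h7⟩ := Metric.eventually_nhds_iff.1 (loc0 hF hz (cz v))
  have hcK : c ∈ K := by
    refine hK c (edge_of_dep hA hP.good1 h0 hfull hα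
      (fin_line hE hF (fun f hf => hA.irrational (h0 (hA0 f hf))) hz v) (line_mem hP hX z v)
      hε hρ fun t ht h8 => ?_)
    have ht' : Off E F (y t) := not_not.1 ht
    have h9 : ∀ j : ℤ, ∀ f ∈ F, (H (f.ev (cz (y t))) ↔ pat (t * α - j) f) := fun j f hf => by
      simp only [y, pat]
      rw [ev_line]
      by_cases e : f.α = α
      · rw [if_pos e, hmr f hf, ← Switch_per _ _ (t * α - j) j, sub_add_cancel, e]
      · obtain ⟨k, hk⟩ := h8 _ (hA0 f hf) e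
        rw [if_neg e, mul_zero, zero_add, ← h7 (by rwa [Real.dist_0_eq_abs]) f hf, hmr f hf,
          ← Switch_per _ _ (t * f.α - k) k, sub_add_cancel]
    exact ⟨fun ⟨j, hj⟩ => hΨ _ _ ht' (cong_line z hv t) (h9 j) (h4 _ hj),
      fun ⟨j, hj⟩ hY => h5 _ hj ⟨t, ht', hY, h9 j⟩⟩
  have hnw : ∀ f ∈ F, f.α = α → (f.b (cz v) : ℝ) ≠ 0 → ∀ l : ℤ,
      (f.b (cz v) : ℝ) * c + f.ev (cz z) ≠ l / 2 := fun f hf e hm0 l hl => by
    refine c3 f hf e ?_ hm0 c hcI l hl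
    have e1 : f.r = ((l : ℚ) / 2 : ℚ) * (1 : ℝ) - (f.b (cz v) : ℝ) * c - (f.b (cz z) : ℝ) * α := by
      rw [Frm.ev, e] at hl
      push_cast
      linarith
    rw [e1]
    exact sub_mem (sub_mem (rat_mul_mem h1 _) (rat_mul_mem hcK _)) (rat_mul_mem hαK _)
  obtain ⟨δ, hδ, h10⟩ := Metric.eventually_nhds_iff.1 ((eventually_all_finite hF).2 fun f hf =>
    eventually_imp_distrib_left.2 fun e : f.α = α => loc_H (hnw f hf e))
  have hμ : 0 < min ε δ := lt_min hε hδ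
  have m1 := min_le_left ε δ
  have m2 := min_le_right ε δ
  have d1 : dist (c - min ε δ / 2) c < δ := by
    rw [Real.dist_eq, abs_lt]
    constructor <;> linarith
  have d2 : dist (c + min ε δ / 2) c < δ := by
    rw [Real.dist_eq, abs_lt]
    constructor <;> linarith
  exact h5 (c + min ε δ / 2) ⟨by linarith, by linarith⟩ (hf _ _
    (fun f hf e => (h10 d1 f hf e).trans (h10 d2 f hf e).symm)
    (h4 (c - min ε δ / 2) ⟨by linarith, by linarith⟩))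

theorem H_half {x : ℝ} (hx : |x| < 1 / 2) (l : ℤ) : H (x + l / 2) ↔ (Even l ↔ 0 ≤ x) := by
  rcases Int.even_or_odd' l with ⟨j, hj | hj⟩
  · have e : x + l / 2 = x + j := by rw [hj]; push_cast; ring
    rw [e, H_add_int, H_small hx]
    have : Even l := ⟨j, by omega⟩
    simp [this]
  · have e : x + l / 2 = x + 1 / 2 + j := by rw [hj]; push_cast; ring
    rw [e, H_add_int, H_add_half, H_small hx]
    have : ¬ Even l := by rintro ⟨k, hk⟩; omega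
    simp [this]

theorem no_half {a b : ℝ} (h1 : |b - a| < 1 / 2) (h2 : H a ↔ H b) (ha : ∀ l : ℤ, a ≠ l / 2)
    (hb : ∀ l : ℤ, b ≠ l / 2) (l : ℤ) : (l : ℝ) / 2 ∉ uIcc a b := by
  intro hl
  have h3 := abs_lt.1 h1
  have k1 : |a - l / 2| < 1 / 2 := by
    rw [abs_sub_comm]
    exact (abs_sub_left_of_mem_uIcc hl).trans_lt h1
  have k2 : |b - l / 2| < 1 / 2 := (abs_sub_right_of_mem_uIcc hl).trans_lt h1
  have k3 := H_half k1 l
  have k4 := H_half k2 l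
  rw [sub_add_cancel] at k3 k4
  have k5 : 0 ≤ a - l / 2 ↔ 0 ≤ b - l / 2 := by tauto
  rcases mem_uIcc.1 hl with ⟨h4, h5⟩ | ⟨h4, h5⟩
  · exact ha l (by linarith [k5.2 (by linarith)])
  · exact hb l (by linarith [k5.1 (by linarith)])

theorem off_half {v : ℝ} (h : ∀ l : ℤ, v ≠ l / 2) :
    ∀ᶠ w in 𝓝 v, ∀ l : ℤ, (l : ℝ) / 2 ∉ uIcc v w := by
  obtain ⟨ε, hε, hiso⟩ := wall_isolated {0, 1 / 2} v
  refine Metric.eventually_nhds_iff.2 ⟨ε, hε, fun w hw l hl => h l ?_⟩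
  have h1 : |(l : ℝ) / 2 - v| < ε := (abs_sub_left_of_mem_uIcc hl).trans_lt (by rwa [← Real.dist_eq])
  rcases Int.even_or_odd' l with ⟨j, hj | hj⟩
  · have h2 : (l : ℝ) / 2 = 0 + j := by rw [hj]; push_cast; ring
    rw [h2] at h1 ⊢
    exact (hiso 0 (by simp) j h1).symm
  · have h2 : (l : ℝ) / 2 = 1 / 2 + j := by rw [hj]; push_cast; ring
    rw [h2] at h1 ⊢
    exact (hiso (1 / 2) (by simp) j h1).symm

theorem grid {L : ℕ} (hL : 2 ≤ L) {u u' : ℝ}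
    (h : ∀ j ∈ Ico (0 : ℤ) L, (H (u + j / L) ↔ H (u' + j / L))) :
    ∃ n : ℤ, |u' - u - n| < 1 / L := by
  have hL0 : (0 : ℝ) < L := by exact_mod_cast (by omega : 0 < L)
  have hL2 : (2 : ℝ) ≤ L := by exact_mod_cast hL
  have hL' : (0 : ℤ) < L := by exact_mod_cast (by omega : 0 < L)
  have hall : ∀ j : ℤ, (H (u + j / L) ↔ H (u' + j / L)) := fun j => by
    have e : (j : ℝ) / L = ((j % L : ℤ) : ℝ) / L + (j / L : ℤ) := by
      have h1 : ((L * (j / L) + j % L : ℤ) : ℝ) = j := by rw [Int.mul_ediv_add_emod]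
      push_cast at h1
      field_simp
      linarith
    rw [e, ← add_assoc, ← add_assoc, H_add_int, H_add_int]
    exact h _ ⟨Int.emod_nonneg _ hL'.ne', Int.emod_lt_of_pos _ hL'⟩
  have hi : 1 / (L : ℝ) ≤ 1 / 2 := one_div_le_one_div_of_le (by norm_num) hL2
  have hp : 0 < 1 / (L : ℝ) := by positivity
  obtain ⟨k, hk1, hk2⟩ : ∃ k : ℤ, 0 ≤ u - k / L ∧ u - k / L < 1 / L := by
    refine ⟨⌊u * L⌋, ?_, ?_⟩
    · rw [sub_nonneg, div_le_iff₀ hL0]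
      exact Int.floor_le _
    · rw [sub_lt_iff_lt_add, ← add_div, lt_div_iff₀ hL0, add_comm]
      exact Int.lt_floor_add_one _
  have e1 : ((-k : ℤ) : ℝ) / L = -(k / L) := by push_cast; ring
  have e2 : ((-k - 1 : ℤ) : ℝ) / L = -(k / L) - 1 / L := by push_cast; ring
  obtain ⟨n, a1, a2⟩ := (H_iff _).1 ((hall (-k)).1 ((H_iff _).2 ⟨0, by rw [e1]; push_cast; linarith,
    by rw [e1]; push_cast; linarith⟩))
  obtain ⟨n', b1, b2⟩ := (not_H_iff _).1 ((hall (-k - 1)).not.1 ((not_H_iff _).2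
    ⟨0, by rw [e2]; push_cast; linarith, by rw [e2]; push_cast; linarith⟩))
  rw [e1] at a1 a2
  rw [e2] at b1 b2
  have h1 : (n' : ℝ) - n < 1 := by linarith
  have h2 : n' - n < 1 := by exact_mod_cast h1
  have h3 : (n' : ℝ) ≤ n := by exact_mod_cast (by omega : n' ≤ n)
  exact ⟨n, abs_lt.2 ⟨by linarith, by linarith⟩⟩

end Pool.Agent.Work.MP_340ce7_lc
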