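import Pool.Agent.Work.MP_340ce7_lc.Arc.C

/-! Only walls with definable offsets matter. -/

namespace Pool.Agent.Work.MP_340ce7_lc

open Set Filter Topology

variable {A : Set ℝ} {P P' : ∀ ι : Type, Set (ι → ℤ) → Prop} {ι : Type}

open Classical in
/-- The coefficient of a functional at a coordinate. -/
noncomputable def coef (a : Fu ι) (i : ι) : ℝ := (a fun j => if i = j then 1 else 0 : ℚ)

theorem coef_sum [Fintype ι] (a : Fu ι) (w : ι → ℤ) :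
    (a (cz w) : ℝ) = ∑ i, (w i : ℝ) * coef a i := by
  classical
  rw [LinearMap.pi_apply_eq_sum_univ a]
  push_cast
  refine Finset.sum_congr rfl fun i _ => ?_
  simp only [coef, cz, smul_eq_mul]
  push_cast
  congr

theorem floor_lim (δ : ℝ) :
    Tendsto (fun T : ℕ => (⌊(T : ℝ) * δ⌋ : ℝ) / T) atTop (𝓝 δ) := by
  have h1 : Tendsto (fun T : ℕ => δ - 1 / (T : ℝ)) atTop (𝓝 (δ - 0)) :=
    tendsto_const_nhds.sub tendsto_one_div_atTop_nhds_zero_nat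
  rw [sub_zero] at h1
  refine tendsto_of_tendsto_of_tendsto_of_le_of_le' h1 tendsto_const_nhds ?_ ?_
  · filter_upwards [eventually_gt_atTop 0] with T hT
    have h2 : (0 : ℝ) < T := by exact_mod_cast hT
    rw [sub_le_iff_le_add, ← add_div, le_div_iff₀ h2, mul_comm]
    exact (Int.lt_floor_add_one _).le
  · filter_upwards [eventually_gt_atTop 0] with T hT
    have h2 : (0 : ℝ) < T := by exact_mod_cast hT
    rw [div_le_iff₀ h2, mul_comm δ]
    exact Int.floor_le _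

theorem one_dir (hA : Ind A) (hP : Good P) [Fintype ι] {X : Set (ι → ℤ)} (hX : P ι X) {M : ℕ}
    (hM : 0 < M) {E : Set (Fu ι × ℚ)} {F : Set (Frm ι)} (hE : E.Finite) (hF : F.Finite)
    {A0 : Finset ℝ} (h0 : (↑A0 : Set ℝ) ⊆ A) (hA0 : ∀ f ∈ F, f.α ∈ A0)
    (hfull : ∀ β ∈ A0, Full (D1 P) β)
    (hd : ∀ x x', Agree M E F (cz x) (cz x') → x ∈ X → x' ∈ X)
    (hint : ∀ f ∈ F, ∀ w : ι → ℤ, (∀ i, (M : ℤ) ∣ w i) → ∃ k : ℤ, f.b (cz w) = k)
    {α : ℝ} (hα : α ∈ A0) {K : Submodule ℚ ℝ} (h1 : (1 : ℝ) ∈ K) (hαK : α ∈ K)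
    (hK : ∀ c, EdgeAt (D1 P) α c → c ∈ K) {z z' : ι → ℤ} (hz : Off E F z) (hz' : Off E F z')
    (hc : Cong M (cz z) (cz z'))
    (c1 : ∀ f ∈ F, f.α ≠ α → (H (f.ev (cz z)) ↔ H (f.ev (cz z'))))
    (c2 : ∀ f ∈ F, f.α = α → f.r ∈ K → (H (f.ev (cz z)) ↔ H (f.ev (cz z')))) {η : ℝ}
    (hη : ∀ f ∈ F, (∑ i, |coef f.b i|) * η < 1 / 2)
    (hcl : ∀ i, ∃ n : ℤ, |((z' i : ℝ) - z i) * α - M * n| ≤ η) (hzX : z ∈ X) : z' ∈ X := by
  choose n hn using hcl
  let δ : ι → ℝ := fun i => ((z' i : ℝ) - z i) * α - M * n i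
  let d : Frm ι → ℝ := fun f => ∑ i, δ i * coef f.b i
  have hd1 : ∀ f ∈ F, |d f| < 1 / 2 := fun f hf => by
    refine lt_of_le_of_lt ((Finset.abs_sum_le_sum_abs _ _).trans ?_) (hη f hf)
    rw [Finset.sum_mul]
    refine Finset.sum_le_sum fun i _ => ?_
    rw [abs_mul, mul_comm]
    exact mul_le_mul_of_nonneg_left (hn i) (abs_nonneg _)
  have hd2 : ∀ f ∈ F, f.α = α → ∃ k : ℤ, f.ev (cz z') = f.ev (cz z) + d f + k := fun f hf e => by
    obtain ⟨k, hk⟩ := hint f hf (fun i => M * n i) fun i => dvd_mul_right _ _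
    have hk' : (k : ℝ) = ∑ i, ((M * n i : ℤ) : ℝ) * coef f.b i := by
      rw [← coef_sum, hk, Rat.cast_intCast]
    refine ⟨k, ?_⟩
    have e1 : ∑ i, (z' i : ℝ) * coef f.b i * α = ∑ i, ((z i : ℝ) * coef f.b i * α +
        δ i * coef f.b i + ((M * n i : ℤ) : ℝ) * coef f.b i) :=
      Finset.sum_congr rfl fun i _ => by
        simp only [δ]
        push_cast
        ring
    rw [hk', Frm.ev, Frm.ev, coef_sum, coef_sum, e, Finset.sum_mul, Finset.sum_mul, e1,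
      Finset.sum_add_distrib, Finset.sum_add_distrib]
    ring
  have hoff : ∀ f ∈ F, f.α = α → f.b ≠ 0 → ∀ l : ℤ, f.ev (cz z) + d f ≠ l / 2 :=
    fun f hf e hb l hl => by
      obtain ⟨k, hk⟩ := hd2 f hf e
      exact hz'.2 f hf hb (l + 2 * k) (by rw [hk, hl]; push_cast; ring)
  let w : ℕ → Frm ι → ℝ := fun T f => ∑ i, (⌊(T : ℝ) * δ i⌋ : ℝ) / T * coef f.b i
  have hw : ∀ f, Tendsto (fun T => f.ev (cz z) + w T f) atTop (𝓝 (f.ev (cz z) + d f)) := fun f =>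
    (tendsto_finsetSum _ fun i _ => (floor_lim (δ i)).mul_const _).const_add _
  obtain ⟨T, hT, hT1⟩ := ((eventually_gt_atTop 0).and ((eventually_all_finite hF).2 fun f hf =>
    eventually_imp_distrib_left.2 fun e : f.α = α => eventually_imp_distrib_left.2
      fun hb : f.b ≠ 0 => (hw f).eventually (off_half (hoff f hf e hb)))).exists
  have hT0 : (0 : ℝ) < T := by exact_mod_cast hT
  have hM0 : (0 : ℝ) < M := by exact_mod_cast hM
  let v : ι → ℤ := fun i => M * ⌊(T : ℝ) * δ i⌋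
  have hs : ∀ f : Frm ι, (f.b (cz v) : ℝ) * (1 / (T * M)) = w T f := fun f => by
    rw [coef_sum, Finset.sum_mul]
    refine Finset.sum_congr rfl fun i _ => ?_
    simp only [v]
    push_cast
    field_simp
  have hv : ∀ i, (M : ℤ) ∣ v i := fun i => dvd_mul_right _ _
  refine seg hA hP hX hE hF h0 hA0 hfull hd hα h1 hαK hK hz hz' hc hv
    (fun f hf => hint f hf v hv) (s := 1 / (T * M)) (by positivity) c1 (fun f hf e => ?_)
    (fun f hf e hr hm θ hθ l hl => ?_) hzX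
  · by_cases hb : f.b = 0
    · refine Eventually.of_forall fun x => ?_
      simp only [Frm.ev, hb, LinearMap.zero_apply, Rat.cast_zero, zero_mul, zero_add]
    · have a1 := hT1 f hf e hb
      obtain ⟨k, hk⟩ := hd2 f hf e
      refine (loc_H (m := (f.b (cz v) : ℝ)) (g := f.ev (cz z)) (c := 1 / (T * M))
        fun _ l hl => a1 l ?_).mono fun x hx => hx.trans ?_
      · rw [← hl, hs, add_comm (w T f)]
        exact right_mem_uIcc
      · rw [hs, add_comm (w T f), hk, H_add_int]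
        exact (H_const a1).symm
  · have hb : f.b ≠ 0 := fun h => hm (by rw [h, LinearMap.zero_apply, Rat.cast_zero])
    obtain ⟨k, hk⟩ := hd2 f hf e
    have a1 := hT1 f hf e hb l
    have a2 := no_half (a := f.ev (cz z)) (b := f.ev (cz z) + d f)
      (by rw [add_sub_cancel_left]; exact hd1 f hf)
      (by rw [c2 f hf e hr, hk, H_add_int]) (hz.2 f hf hb) (hoff f hf e hb) l
    have a3 : (l : ℝ) / 2 ∈ uIcc (f.ev (cz z)) (f.ev (cz z) + w T f) := by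
      rw [← hl, ← hs, mem_uIcc]
      rcases le_total 0 (f.b (cz v) : ℝ) with h | h
      · exact Or.inl ⟨by linarith [mul_nonneg h hθ.1],
          by linarith [mul_le_mul_of_nonneg_left hθ.2 h]⟩
      · exact Or.inr ⟨by linarith [mul_le_mul_of_nonpos_left hθ.2 h],
          by linarith [mul_nonneg (neg_nonneg.2 h) hθ.1]⟩
    exact (uIcc_subset_uIcc_union_uIcc a3).elim a2 a1

theorem all_dir (hA : Ind A) (hP : Good P) [Fintype ι] {X : Set (ι → ℤ)} (hX : P ι X) {M : ℕ}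
    (hM : 0 < M) {E : Set (Fu ι × ℚ)} {F : Set (Frm ι)} (hE : E.Finite) (hF : F.Finite)
    {A0 : Finset ℝ} (h0 : (↑A0 : Set ℝ) ⊆ A) (hA0 : ∀ f ∈ F, f.α ∈ A0)
    (hfull : ∀ β ∈ A0, Full (D1 P) β)
    (hd : ∀ x x', Agree M E F (cz x) (cz x') → x ∈ X → x' ∈ X)
    (hint : ∀ f ∈ F, ∀ w : ι → ℤ, (∀ i, (M : ℤ) ∣ w i) → ∃ k : ℤ, f.b (cz w) = k)
    {K : ℝ → Submodule ℚ ℝ} (hK : ∀ α ∈ A0, (1 : ℝ) ∈ K α ∧ α ∈ K α ∧
      ∀ c, EdgeAt (D1 P) α c → c ∈ K α) {η : ℝ}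
    (hη : ∀ f ∈ F, (∑ i, |coef f.b i|) * η < 1 / 2)
    (hcl : ∀ α ∈ A0, ∀ z z' : ι → ℤ,
      (∀ f ∈ F, f.α = α → f.r ∈ K α → (H (f.ev (cz z)) ↔ H (f.ev (cz z')))) →
        ∀ i, ∃ n : ℤ, |((z' i : ℝ) - z i) * α - M * n| ≤ η)
    {x x' : ι → ℤ} (hx : Off E F x) (hx' : Off E F x') (hc : Cong M (cz x) (cz x'))
    (hg : ∀ f ∈ F, f.r ∈ K f.α → (H (f.ev (cz x)) ↔ H (f.ev (cz x')))) (hxX : x ∈ X) :
    x' ∈ X := by
  classical
  by_contra hn
  let w : ι → ℤ := fun i => x' i - x i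
  have hw : ∀ i, (M : ℤ) ∣ w i := fun i => by
    obtain ⟨n, hn⟩ := hc i
    refine ⟨n, ?_⟩
    simp only [cz] at hn
    simp only [w]
    exact_mod_cast hn
  have e1 : (fun i => x i + 1 * w i) = x' := by
    funext i
    simp [w]
  let pt : Finset ℝ → (ι → ℤ) → Prop := fun S z => Off E F z ∧ Cong M (cz x) (cz z) ∧
    ∀ f ∈ F, (H (f.ev (cz z)) ↔ H (f.ev (cz (if f.α ∈ S then x' else x))))
  have hex : ∀ S, ∃ z, pt S z := fun S => by
    obtain ⟨ρ, hρ, h7⟩ := Metric.eventually_nhds_iff.1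
      ((loc0 hF hx (cz w)).and (loc0 hF hx' (cz w)))
    obtain ⟨t, ht, h8⟩ := kron1 hA A0 h0 (fun β => if β ∈ S then β else 0) hρ
      (fin_line hE hF (fun f hf => hA.irrational (h0 (hA0 f hf))) hx w)
    refine ⟨_, not_not.1 ht, cong_line x hw t, fun f hf => ?_⟩
    obtain ⟨j, hj⟩ := h8 _ (hA0 f hf)
    obtain ⟨k, hk⟩ := hint f hf w hw
    have hk' : (f.b (cz w) : ℝ) = k := by rw [hk, Rat.cast_intCast]
    obtain ⟨a1, a2⟩ := h7 (by rwa [Real.dist_0_eq_abs])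
    have a3 := ev_line f x w 1
    rw [e1] at a3
    rw [ev_line]
    by_cases hS : f.α ∈ S
    · simp only [if_pos hS] at a2 ⊢
      rw [← a2 f hf, a3, hk', ← H_add_int (_ + (_ + _)) (k * j)]
      refine iff_of_eq (congrArg H ?_)
      push_cast
      ring
    · simp only [if_neg hS] at a1 ⊢
      rw [← a1 f hf, hk', ← H_add_int (k * (_ - _ - _) + _) (k * j)]
      refine iff_of_eq (congrArg H ?_)
      push_cast
      ring
  obtain ⟨S, α, hα, hαS, h2, h3⟩ := Switch_flip (fun S => ∀ z, pt S z → z ∈ X) A0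
    (fun z hz => hd _ _ (agree_of_off hx hz.1 hz.2.1 fun f hf => by
      simpa using (hz.2.2 f hf).symm) hxX)
    fun h => hn (h x' ⟨hx', hc, fun f hf => by rw [if_pos (hA0 f hf)]⟩)
  refine h3 fun z' hz' => ?_
  obtain ⟨z, hz⟩ := hex S
  have hgood : ∀ f ∈ F, f.α = α → f.r ∈ K α → (H (f.ev (cz z)) ↔ H (f.ev (cz z'))) :=
    fun f hf e hr => by
      rw [hz.2.2 f hf, hz'.2.2 f hf, e, if_neg hαS, if_pos (Finset.mem_insert_self _ _)]
      exact hg f hf (e ▸ hr)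
  refine one_dir hA hP hX hM hE hF h0 hA0 hfull hd hint hα (hK α hα).1 (hK α hα).2.1
    (hK α hα).2.2 hz.1 hz'.1 (hz.2.1.symm.trans hz'.2.1) (fun f hf e => ?_) hgood hη
    (hcl α hα z z' hgood) (h2 z hz)
  rw [hz.2.2 f hf, hz'.2.2 f hf]
  simp only [Finset.mem_insert, e, false_or]

theorem step_two {B : Set ℝ} (hB : Ind B) (hP : Good P) (hP' : Good P') [Finite ι]
    (ih : ∀ (κ : Type) [Finite κ], Nat.card κ < Nat.card ι → ∀ X : Set (κ → ℤ), P κ X → P' κ X)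
    (hfull : ∀ β ∈ B, Full (D1 P) β) {K : ℝ → Submodule ℚ ℝ}
    (hK : ∀ α ∈ B, (1 : ℝ) ∈ K α ∧ α ∈ K α ∧ ∀ c, EdgeAt (D1 P) α c → c ∈ K α)
    (hsub : ∀ X : Set (ι → ℤ), Det B K ι X → P' ι X)
    {X : Set (ι → ℤ)} (hX : P ι X) (hdet : Det B (fun _ => ⊤) ι X) : P' ι X := by
  classical
  cases nonempty_fintype ι
  obtain ⟨N, E, F, hN, hE, hF, hok, hd⟩ := hdet
  obtain ⟨D, hD, hden⟩ := den_common (hF.image Frm.b)
  have hM : 0 < N * D := Nat.mul_pos hN hD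
  generalize hMe : N * D = M at hM
  have hM0 : (0 : ℝ) < M := by exact_mod_cast hM
  let A0 : Finset ℝ := hF.toFinset.image Frm.α
  have h0 : (↑A0 : Set ℝ) ⊆ B := fun β hβ => by
    obtain ⟨f, hf, rfl⟩ := Finset.mem_image.1 hβ
    exact (hok f (hF.mem_toFinset.1 hf)).1
  let pr : ι → Fu ι := fun i => (M : ℚ)⁻¹ • LinearMap.proj i
  have hBs : (Frm.b '' F ∪ range pr).Finite := (hF.image _).union (finite_range _)
  obtain ⟨L, hL, hL1⟩ := ((eventually_ge_atTop 2).and ((eventually_all_finite hBs).2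
    fun b _ => (((tendsto_const_div_atTop_nhds_zero_nat (M : ℝ)).const_mul
      (∑ i, |coef b i|)).eventually (gt_mem_nhds (show _ < (1 : ℝ) / 2 by norm_num))))).exists
  let gr : ℝ × ι × ℤ → Frm ι := fun p => ⟨p.1, pr p.2.1, p.2.2 / L⟩
  let F' : Set (Frm ι) := F ∪ gr '' ((↑A0 : Set ℝ) ×ˢ (univ : Set ι) ×ˢ Ico (0 : ℤ) L)
  have hF' : F'.Finite :=
    hF.union ((A0.finite_toSet.prod (finite_univ.prod (finite_Ico _ _))).image _)
  have hA0 : ∀ f ∈ F', f.α ∈ A0 := by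
    rintro f (hf | ⟨p, hp, rfl⟩)
    · exact Finset.mem_image_of_mem _ (hF.mem_toFinset.2 hf)
    · exact hp.1
  have hpr : ∀ (i : ι) (z : ι → ℤ), (pr i (cz z) : ℝ) = z i / M := fun i z => by
    simp only [pr, LinearMap.smul_apply, LinearMap.proj_apply, cz, smul_eq_mul]
    push_cast
    ring
  obtain ⟨C, hC, hC0, hCo⟩ := exists_crit hE hF' fun f hf => hB.irrational (h0 (hA0 f hf))
  let Fg : Set (Frm ι) := {f ∈ F' | f.r ∈ K f.α}
  refine split_planes hP hP' ih hC hC0 hX (hsub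
    {x' | ∃ x ∈ X, Off E F' x ∧ Agree M ∅ Fg (cz x) (cz x')}
    ⟨M, ∅, Fg, hM, finite_empty, hF'.subset fun f hf => hf.1,
      fun f hf => ⟨h0 (hA0 f hf.1), hf.2⟩, ?_⟩) fun x' hx' =>
        ⟨fun h => ⟨x', h, (hCo x').2 hx', Agree.refl _ _ _ _⟩, ?_⟩
  · rintro x x' h ⟨y, hy, hy', h'⟩
    exact ⟨y, hy, hy', h'.trans h⟩
  · rintro ⟨x, hx, ho, h⟩
    refine all_dir hB hP hX hM hE hF' h0 hA0 (fun β hβ => hfull β (h0 hβ))
      (fun x x' h => hd x x' ⟨(hMe ▸ h.cong : Cong (N * D) _ _).of_mul_left, h.eqn,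
        fun f hf => h.frm f (Or.inl hf)⟩) ?_ (fun α hα => hK α (h0 hα)) (η := M / L) ?_ ?_ ho
      ((hCo x').2 hx') h.cong (fun f hf hr => h.frm f ⟨hf, hr⟩) hx
    · rintro f (hf | ⟨p, hp, rfl⟩) w hw
      · obtain ⟨n, hn⟩ := hden _ ⟨f, hf, rfl⟩ N 0 (cz w) fun i => by
          obtain ⟨k, hk⟩ := hw i
          exact ⟨k, by simp only [cz, hk, hMe, Pi.zero_apply]; push_cast; ring⟩
        rw [map_zero, sub_zero] at hn
        exact ⟨N * n, by rw [hn]; push_cast; rfl⟩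
      · obtain ⟨k, hk⟩ := hw p.2.1
        refine ⟨k, ?_⟩
        have h1 := hpr p.2.1 w
        rw [hk] at h1
        have h2 : (pr p.2.1 (cz w) : ℝ) = k := by
          rw [h1]
          push_cast
          field_simp
        exact_mod_cast h2
    · rintro f (hf | ⟨p, hp, rfl⟩)
      · exact hL1 _ (Or.inl ⟨f, hf, rfl⟩)
      · exact hL1 _ (Or.inr ⟨p.2.1, rfl⟩)
    · intro α hα z z' h i
      obtain ⟨n, hn⟩ := grid hL (u := z i / M * α) (u' := z' i / M * α) fun j hj => by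
        have h1 := h (gr (α, i, j)) (Or.inr ⟨_, ⟨hα, trivial, hj⟩, rfl⟩) rfl (by
          have := rat_mul_mem (hK α (h0 hα)).1 ((j : ℚ) / L)
          simpa [gr] using this)
        simpa only [gr, Frm.ev, hpr] using h1
      refine ⟨n, ?_⟩
      have e : ((z' i : ℝ) - z i) * α - M * n = M * (z' i / M * α - z i / M * α - n) := by
        field_simp
      rw [e, abs_mul, abs_of_pos hM0, div_eq_mul_one_div (M : ℝ) L]
      exact mul_le_mul_of_nonneg_left hn.le hM0.le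

theorem sevenK (hA : Ind A) (hP : Good P) (hP' : Good P')
    (hdet : ∀ (ι : Type) [Finite ι] (X : Set (ι → ℤ)), P ι X → Det A (fun _ => ⊤) ι X)
    {K : ℝ → Submodule ℚ ℝ} (hK : ∀ α ∈ A, Full (D1 P) α → (1 : ℝ) ∈ K α ∧ α ∈ K α ∧
      (∀ c, EdgeAt (D1 P) α c → c ∈ K α) ∧ ∀ r ∈ K α, D1 P' {t : ℤ | H (t * α + r)})
    (ι : Type) [Finite ι] (X : Set (ι → ℤ)) (hX : P ι X) : P' ι X := by
  induction hn : Nat.card ι using Nat.strong_induction_on generalizing ι with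
  | _ n ih =>
  subst hn
  have ih' : ∀ (κ : Type) [Finite κ], Nat.card κ < Nat.card ι →
      ∀ X : Set (κ → ℤ), P κ X → P' κ X := fun κ _ h X hX => ih _ h κ X hX rfl
  obtain ⟨N, E, F, hN, hE, hF, hok, hd⟩ := hdet ι X hX
  obtain ⟨D, hD, hden⟩ := den_common (hF.image Frm.b)
  obtain ⟨C, hC, hC0, hCo⟩ := exists_crit hE hF fun f hf => hA.irrational (hok f hf).1
  have hX0 : P ι (X ∩ ⋂ e ∈ C, {x | e.1 (cz x) = e.2}ᶜ) :=
    hP.inter hX (hP.biInter hC fun e _ => hP.compl (hP.eqn _ _))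
  refine split_planes hP hP' ih' hC hC0 hX (step_two (B := {α ∈ A | Full (D1 P) α})
    (hA.mono fun α hα => hα.1) hP hP' ih' (fun β hβ => hβ.2) (K := K)
    (fun α hα => ⟨(hK α hα.1 hα.2).1, (hK α hα.1 hα.2).2.1, (hK α hα.1 hα.2).2.2.1⟩)
    (fun Y hY => det_subK hP' (fun α hα => fullK_of_basic hP'.good1 (hK α hα.1 hα.2).1
      (hK α hα.1 hα.2).2.1 (hK α hα.1 hα.2).2.2.2) hY) hX0
    ⟨N * D, C, {f ∈ F | Full (D1 P) f.α}, Nat.mul_pos hN hD, hC, hF.subset fun f hf => hf.1,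
      fun f hf => ⟨⟨(hok f hf.1).1, hf.2⟩, Submodule.mem_top⟩, ?_⟩) fun x hx =>
        ⟨fun h => ⟨h, mem_iInter₂.2 hx⟩, fun h => h.1⟩
  rintro x x' h ⟨hx, hg⟩
  have g1 : ∀ e ∈ C, e.1 (cz x) ≠ e.2 := mem_iInter₂.1 hg
  have g2 : ∀ e ∈ C, e.1 (cz x') ≠ e.2 := fun e he h1 => g1 e he ((h.eqn e he).2 h1)
  have o1 := (hCo x).2 g1
  have o2 := (hCo x').2 g2
  refine ⟨off_planeK hA hP (tameCl_top hdet) hX hE hF (fun f hf => (hok f hf).1) hd
    h.cong.of_mul_left (fun f hf => ?_) (fun e he h0 => ⟨o1.1 e he h0, o2.1 e he h0⟩)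
    (fun f hf h0 l => ⟨o1.2 f hf h0 l, o2.2 f hf h0 l⟩) (fun f hf hfu => h.frm f ⟨hf, hfu⟩) hx,
    mem_iInter₂.2 g2⟩
  obtain ⟨n, hn⟩ := hden f.b (mem_image_of_mem _ hf) N _ _ h.cong
  exact ⟨N * n, by rw [hn]; push_cast; ring⟩

end Pool.Agent.Work.MP_340ce7_lc
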