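import Pool.Agent.Work.MP_340ce7_lc.Defs

/-! Statement definitions: expansions of the group of integers by cyclic orders and arcs. -/

namespace Pool.Agent.Work.MP_340ce7_lc

/-- One unary and one ternary relation symbol for each member of `T`. -/
inductive Ra (T : Set (ℝ × ℝ)) : ℕ → Type
  | arc (p : T) : Ra T 1
  | cyc (p : T) : Ra T 3

/-- The structure `(ℤ; +, (C_α, J (α, r))_{(α, r) ∈ T})`, where `J (α, r)` is the set of `t`
such that the fractional part of `t α + r` is less than one half. -/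
def arcStr (T : Set (ℝ × ℝ)) : Str where
  L := ⟨Fn, Ra T⟩
  S :=
    { funMap := fun f v => match f, v with
        | Fn.add, v => v 0 + v 1
      RelMap := fun r v => match r, v with
        | Ra.arc p, v => Int.fract (v 0 * p.1.1 + p.1.2) < 1 / 2
        | Ra.cyc p, v => Cyc p.1.1 (v 0) (v 1) (v 2) }

/-- Every fibre of `T` is empty, or lies over a member `α` of `A` and is a rational subspace
of the reals containing `1` and `α`. -/
def Adm (A : Set ℝ) (T : Set (ℝ × ℝ)) : Prop :=
  ∀ α : ℝ, (∀ r : ℝ, (α, r) ∉ T) ∨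
    (α ∈ A ∧ ∃ E : Submodule ℚ ℝ, (1 : ℝ) ∈ E ∧ α ∈ E ∧ ∀ r : ℝ, (α, r) ∈ T ↔ r ∈ E)

/-- The family of all sets definable with parameters in `M`, in all arities. -/
def Dfs (M : Str) : Set (Σ n : ℕ, Set (Fin n → ℤ)) :=
  {X | @Set.Definable ℤ Set.univ M.L M.S (Fin X.1) X.2}

end Pool.Agent.Work.MP_340ce7_lc
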