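import Pool.Agent.Work.MP_340ce7_lc.Arc.D
import Pool.Agent.Work.MP_340ce7_lc.Arc.Defs

/-! The lattice of structures below the expansion by all arcs in independent directions. -/

namespace Pool.Agent.Work.MP_340ce7_lc

open Set Filter Topology

variable {A : Set ℝ} {P : ∀ ι : Type, Set (ι → ℤ) → Prop}

theorem df_add_arc (T : Set (ℝ × ℝ)) : Df (arcStr T) (Fin 3) {v | v 0 + v 1 = v 2} := by
  exact df_fun (arcStr T) Fn.add

theorem d1_arc {T : Set (ℝ × ℝ)} {α r : ℝ} (h : (α, r) ∈ T) :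
    D1 (Df (arcStr T)) {t : ℤ | H (t * α + r)} := by
  exact (df_rel (arcStr T) (Ra.arc ⟨(α, r), h⟩)).pre fun _ : Fin 1 => ()

theorem arc_sub (hP : Good P) {T : Set (ℝ × ℝ)}
    (h : ∀ p ∈ T, D1 P {t : ℤ | H (t * p.1 + p.2)} ∧ P (Fin 3) {x | Cyc p.1 (x 0) (x 1) (x 2)})
    (ι : Type) [Finite ι] (X : Set (ι → ℤ)) (hX : Df (arcStr T) ι X) : P ι X := by
  refine df_sub hP (arcStr T) ?_ ?_ ι X hX
  · intro n f
    cases f
    exact (IsAff.var 0).add (IsAff.var 1)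
  · intro n r
    cases r with
    | arc p => exact hP.d1 (h p p.2).1 (IsAff.var 0)
    | cyc p => exact (h p p.2).2

/-- Structures given by arcs with offsets in `K` are determined by atoms over `K`. -/
theorem arc_det {B : Set ℝ} (hB : Ind B) {K : ℝ → Submodule ℚ ℝ}
    (hK : ∀ α ∈ B, (1 : ℝ) ∈ K α ∧ α ∈ K α) {T : Set (ℝ × ℝ)}
    (h : ∀ p ∈ T, p.1 ∈ B ∧ p.2 ∈ K p.1)
    (ι : Type) [Finite ι] (X : Set (ι → ℤ)) (hX : Df (arcStr T) ι X) : Det B K ι X := by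
  have g := good_det hB hK
  refine arc_sub g (fun p hp => ⟨?_, ?_⟩) ι X hX
  · simpa using det_H (A := B) (K := K) (h p hp).1 (h p hp).2 1
  · refine cyc_of_H g (hB.irrational (h p hp).1) ?_
    simpa using det_H (A := B) (K := K) (h p hp).1 (zero_mem _) 1

theorem full_of_H (hA : Ind A) {D : Set ℤ → Prop} (hD : Good1 D) (hcl : TameCl A D) {α r : ℝ}
    (hα : α ∈ A) (h : D {t : ℤ | H (t * α + r)}) : Full D α := by
  obtain ⟨W, hW, -⟩ := tame_of_pat (G := {(α, 1, r)}) (Φ := ∅) (Y := {t : ℤ | H (t * α + r)})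
    (A0 := {α}) (fun t t' _ _ h1 => by simpa using (h1 _ (Finset.mem_singleton_self _)).1)
    (by simp)
  refine full_of_dep hA hD hcl (by simpa using hα) (Finset.mem_singleton_self α) finite_empty h hW
    ⟨1 / 2 - r, 1 / 2, 1, 0, by norm_num, one_pos, fun t _ _ => ⟨?_, ?_⟩⟩
  · rintro ⟨n, h1, h2⟩
    exact (H_iff _).2 ⟨n, by linarith, by linarith⟩
  · rintro ⟨n, h1, h2⟩
    exact (not_H_iff _).2 ⟨n + 1, by push_cast; linarith, by push_cast; linarith⟩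

/-- An arc which is determined by atoms over `K` has its offset in `K`. -/
theorem mem_of_det (hA : Ind A) {B : Set ℝ} (hB : B ⊆ A) {K : ℝ → Submodule ℚ ℝ}
    (hK : ∀ α ∈ B, (1 : ℝ) ∈ K α) {α r : ℝ} (hα : α ∈ A)
    (h : D1 (Det B K) {t : ℤ | H (t * α + r)}) : α ∈ B ∧ r ∈ K α := by
  classical
  by_contra hn
  obtain ⟨N, E, F, hN, hE, hF, hok, h⟩ := h
  obtain ⟨D, hD, hd⟩ := den_common (hF.image Frm.b)
  obtain ⟨G, Φ, h1, h2, -, h3⟩ := line hE hF h 0 (fun _ => (N * D : ℕ))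
    (fun _ => by push_cast; exact dvd_mul_right _ _) fun f hf => by
      obtain ⟨n, hn⟩ := hd _ ⟨f, hf, rfl⟩ N 0 (cz fun _ => (N * D : ℕ)) fun _ => ⟨1, by simp [cz]⟩
      rw [map_zero, sub_zero] at hn
      exact ⟨N * n, by rw [hn]; push_cast; rfl⟩
  have hM : 0 < N * D := Nat.mul_pos hN hD
  generalize N * D = M at hM h2 h3
  have hM0 : (0 : ℝ) < M := by exact_mod_cast hM
  obtain ⟨c, hc⟩ : ∃ c : ℝ, M * c + r = 1 / 2 := ⟨(1 / 2 - r) / M, by field_simp; ring⟩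
  have hloc : ∀ᶠ x in 𝓝 c, Switch_R G α x c := by
    refine G.eventually_all.2 fun q hq => eventually_imp_distrib_left.2 fun e =>
      loc_H fun hm l hl => hn ?_
    obtain ⟨f, hf, e1, -, e3⟩ := h3 q hq
    have e0 : cz (0 : Unit → ℤ) = 0 := funext fun _ => Int.cast_zero
    rw [e0, Frm.ev, map_zero, Rat.cast_zero, zero_mul, zero_add] at e3
    have a1 : α ∈ B := e ▸ e1 ▸ (hok f hf).1
    have a2 : f.r ∈ K α := e ▸ e1 ▸ (hok f hf).2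
    have a3 : r = ((1 / 2 - M * l / (2 * q.2.1) : ℚ) : ℝ) * 1 + ((M / q.2.1 : ℚ) : ℝ) * f.r := by
      rw [← e3]
      push_cast
      field_simp
      linear_combination (2 * (q.2.1 : ℝ)) * hc - (2 * (M : ℝ)) * hl
    exact ⟨a1, a3 ▸ add_mem (rat_mul_mem (hK α a1) _) (rat_mul_mem a2 _)⟩
  obtain ⟨δ, hδ, h4⟩ := Metric.eventually_nhds_iff.1 hloc
  obtain ⟨ε, hε, h5⟩ := mem_nhdsGT_iff_exists_Ioo_subset.1 (G.eventually_all.2 fun q _ =>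
    ev_Hs q.2.1 q.2.2)
  have hε' : 0 < ε := hε
  obtain ⟨μ, hμ, m1, m2, m3⟩ : ∃ μ : ℝ, 0 < μ ∧ 2 * μ ≤ δ ∧ 2 * μ ≤ ε ∧ M * μ ≤ 1 / 4 := by
    refine ⟨min (min (δ / 2) (ε / 2)) (1 / (4 * M)), by positivity, ?_, ?_, ?_⟩
    · linarith [(min_le_left (min (δ / 2) (ε / 2)) (1 / (4 * M))).trans (min_le_left _ _)]
    · linarith [(min_le_left (min (δ / 2) (ε / 2)) (1 / (4 * M))).trans (min_le_right _ _)]
    · refine (mul_le_mul_of_nonneg_left (min_le_right _ _) hM0.le).trans (le_of_eq ?_)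
      field_simp
  have h0 : (↑(insert α (G.image Prod.fst)) : Set ℝ) ⊆ A := by
    rw [Finset.coe_insert]
    refine insert_subset hα fun β hβ => ?_
    obtain ⟨q, hq, rfl⟩ := Finset.mem_image.1 hβ
    obtain ⟨f, hf, e1, -⟩ := h3 q hq
    exact e1 ▸ hB (hok f hf).1
  have key : ∀ s : ℝ, |s| = μ → ∃ t : ℤ, t ∉ Φ ∧ (∃ j : ℤ, |t * α - (c + s) - j| < μ) ∧
      ∀ q ∈ G, (H (q.2.1 * (t * q.1) + q.2.2) ↔
        if q.1 = α then H (q.2.1 * c + q.2.2) else Hs q.2.1 q.2.2) := fun s hs => by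
    obtain ⟨t, ht, h6⟩ := kron1 hA _ h0 (fun β => if β = α then c + s else μ) hμ h1
    have h7 := h6 α (Finset.mem_insert_self _ _)
    rw [if_pos rfl] at h7
    refine ⟨t, ht, h7, fun q hq => ?_⟩
    by_cases e : q.1 = α
    · obtain ⟨j, hj⟩ := h7
      rw [if_pos e, e, ← h4 (y := t * α - j) ?_ q hq e, ← Switch_per _ _ (t * α - j) j,
        sub_add_cancel]
      rw [Real.dist_eq, show t * α - j - c = (t * α - (c + s) - j) + s by ring]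
      exact (abs_add_le _ _).trans_lt (by linarith)
    · obtain ⟨j, hj⟩ := h6 q.1 (Finset.mem_insert_of_mem (Finset.mem_image_of_mem _ hq))
      rw [if_neg e] at hj
      have h8 := abs_lt.1 hj
      rw [if_neg e, ← h5 (show t * q.1 - j ∈ Ioo 0 ε from ⟨by linarith, by linarith⟩) q hq,
        add_comm q.2.2, ← Switch_per _ _ (t * q.1 - j) j, sub_add_cancel]
  obtain ⟨t, ht, ⟨j, hj⟩, h6⟩ := key (-μ) (by rw [abs_neg, abs_of_pos hμ])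
  obtain ⟨t', ht', ⟨j', hj'⟩, h6'⟩ := key μ (abs_of_pos hμ)
  have b1 := abs_lt.1 hj
  have b2 := abs_lt.1 hj'
  have h7 := h2 t t' ht ht' (fun q hq => (h6 q hq).trans (h6' q hq).symm)
    ((H_iff _).2 ⟨M * j, by
      simp only [Pi.zero_apply, zero_add]; push_cast
      nlinarith [mul_lt_mul_of_pos_left b1.1 hM0], by
      simp only [Pi.zero_apply, zero_add]; push_cast
      nlinarith [mul_lt_mul_of_pos_left b1.2 hM0]⟩)
  refine (not_H_iff _).2 ⟨M * j' + 1, ?_, ?_⟩ h7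
  · simp only [Pi.zero_apply, zero_add]; push_cast
    nlinarith [mul_lt_mul_of_pos_left b2.1 hM0]
  · simp only [Pi.zero_apply, zero_add]; push_cast
    nlinarith [mul_lt_mul_of_pos_left b2.2 hM0]

theorem dfs_le {M M' : Str} : Dfs M ⊆ Dfs M' ↔ Below M M' :=
  ⟨fun h n X hX => h (a := ⟨n, X⟩) hX, fun h X hX => h X.1 X.2 hX⟩

theorem adm_data {T : Set (ℝ × ℝ)} (hT : Adm A T) : ∃ (B : Set ℝ) (K : ℝ → Submodule ℚ ℝ),
    B ⊆ A ∧ (∀ α ∈ B, (1 : ℝ) ∈ K α ∧ α ∈ K α) ∧ ∀ p : ℝ × ℝ, p ∈ T ↔ p.1 ∈ B ∧ p.2 ∈ K p.1 := by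
  have h : ∀ α : ℝ, ∃ E : Submodule ℚ ℝ, (∃ r, (α, r) ∈ T) →
      α ∈ A ∧ (1 : ℝ) ∈ E ∧ α ∈ E ∧ ∀ r : ℝ, (α, r) ∈ T ↔ r ∈ E := fun α => by
    rcases hT α with h | ⟨h, E, hE⟩
    · exact ⟨⊤, fun ⟨r, hr⟩ => absurd hr (h r)⟩
    · exact ⟨E, fun _ => ⟨h, hE⟩⟩
  choose K hK using h
  refine ⟨{α | ∃ r, (α, r) ∈ T}, K, fun α hα => (hK α hα).1,
    fun α hα => ⟨(hK α hα).2.1, (hK α hα).2.2.1⟩, fun p => ⟨fun hp => ?_, fun hp => ?_⟩⟩
  · exact ⟨⟨p.2, hp⟩, ((hK p.1 ⟨p.2, hp⟩).2.2.2 p.2).1 hp⟩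
  · exact ((hK p.1 hp.1).2.2.2 p.2).2 hp.2

theorem arc_mono {T T' : Set (ℝ × ℝ)} (h : T ⊆ T') : Below (arcStr T) (arcStr T') :=
  below_iff.2 (arc_sub (good_df (df_add_arc T')) fun p hp =>
    ⟨d1_arc (h hp), df_rel (arcStr T') (Ra.cyc ⟨p, h hp⟩)⟩)

theorem arc_reflect (hA : Ind A) {T T' : Set (ℝ × ℝ)} (hT : Adm A T) (hT' : Adm A T')
    (h : Below (arcStr T) (arcStr T')) : T ⊆ T' := by
  obtain ⟨B, K, hB, -, hp⟩ := adm_data hT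
  obtain ⟨B', K', hB', hK', hp'⟩ := adm_data hT'
  intro p h1
  exact (hp' p).2 (mem_of_det hA hB' (fun α hα => (hK' α hα).1) (hB ((hp p).1 h1).1)
    (arc_det (hA.mono hB') hK' (fun q hq => (hp' q).1 hq) _ _
      (below_iff.1 h _ _ (d1_arc (α := p.1) (r := p.2) h1))))

theorem arc_classify (hA : Ind A) (M : Str) (h0 : Below (arcStr ∅) M)
    (h1 : Below M (arcStr (A ×ˢ univ))) :
    ∃ T, Adm A T ∧ Below M (arcStr T) ∧ Below (arcStr T) M := by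
  have hP : Good (Df M) := good_df (below_iff.1 h0 _ _ (df_add_arc ∅))
  have hdet : ∀ (ι : Type) [Finite ι] (X : Set (ι → ℤ)), Df M ι X →
      Det A (fun _ => ⊤) ι X := fun ι _ X hX =>
    arc_det hA (fun _ _ => ⟨Submodule.mem_top, Submodule.mem_top⟩)
      (fun p hp => ⟨hp.1, Submodule.mem_top⟩) ι X (below_iff.1 h1 ι X hX)
  have hex : ∀ α : ℝ, ∃ E : Submodule ℚ ℝ, α ∈ A → Full (D1 (Df M)) α →
      (1 : ℝ) ∈ E ∧ α ∈ E ∧ (∀ r, r ∈ E ↔ EdgeAt (D1 (Df M)) α r) ∧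
        ∀ r, r ∈ E ↔ D1 (Df M) {t : ℤ | H (t * α + r)} := fun α => by
    by_cases h : α ∈ A ∧ Full (D1 (Df M)) α
    · obtain ⟨E, hE⟩ := exists_sub hP.good1 (hA.irrational h.1) h.2
      exact ⟨E, fun _ _ => hE⟩
    · exact ⟨⊤, fun a b => absurd ⟨a, b⟩ h⟩
  choose K hK using hex
  let T : Set (ℝ × ℝ) := {p | p.1 ∈ A ∧ D1 (Df M) {t : ℤ | H (t * p.1 + p.2)}}
  have hf : ∀ p ∈ T, Full (D1 (Df M)) p.1 := fun p hp =>
    full_of_H hA hP.good1 (tameCl_top hdet) hp.1 hp.2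
  refine ⟨T, fun α => ?_, below_iff.2 (sevenK hA hP (good_df (df_add_arc T)) hdet (K := K)
    fun α hα hF => ⟨(hK α hα hF).1, (hK α hα hF).2.1, fun c hc => ((hK α hα hF).2.2.1 c).2 hc,
      fun r hr => d1_arc ⟨hα, ((hK α hα hF).2.2.2 r).1 hr⟩⟩),
    below_iff.2 (arc_sub hP fun p hp =>
      ⟨hp.2, cyc_of_full hP (hA.irrational hp.1) (self_mem_Sp _) (hf p hp)⟩)⟩
  by_cases h : ∃ r, (α, r) ∈ T
  · obtain ⟨r, hr⟩ := h
    have h2 := hK α hr.1 (hf (α, r) hr)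
    exact Or.inr ⟨hr.1, K α, h2.1, h2.2.1, fun s =>
      ⟨fun h3 => (h2.2.2.2 s).2 h3.2, fun h3 => ⟨hr.1, (h2.2.2.2 s).1 h3⟩⟩⟩
  · exact Or.inl fun r hr => h ⟨r, hr⟩

theorem arc_main (A : Set ℝ) (hi : ∀ α ∈ A, Irrational α)
    (hA : LinearIndepOn ℚ id (insert (1 : ℝ) A)) :
    ∃ e : {T : Set (ℝ × ℝ) // Adm A T} ≃o
      {S : Set (Σ n : ℕ, Set (Fin n → ℤ)) // (∃ M : Str, S = Dfs M) ∧
        Dfs (arcStr ∅) ⊆ S ∧ S ⊆ Dfs (arcStr (A ×ˢ univ))},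
      ∀ T, (e T).1 = Dfs (arcStr T.1) := by
  have hI := (ind_iff hi).2 hA
  let φ : {T : Set (ℝ × ℝ) // Adm A T} ↪o
      {S : Set (Σ n : ℕ, Set (Fin n → ℤ)) // (∃ M : Str, S = Dfs M) ∧
        Dfs (arcStr ∅) ⊆ S ∧ S ⊆ Dfs (arcStr (A ×ˢ univ))} :=
    OrderEmbedding.ofMapLEIff (fun T => ⟨Dfs (arcStr T.1), ⟨_, rfl⟩,
      dfs_le.2 (arc_mono (empty_subset _)), dfs_le.2 (arc_mono fun p hp => by
        obtain ⟨B, K, hB, -, h⟩ := adm_data T.2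
        exact ⟨hB ((h p).1 hp).1, trivial⟩)⟩)
      fun T T' => ⟨fun h => arc_reflect hI T.2 T'.2 (dfs_le.1 h), fun h => dfs_le.2 (arc_mono h)⟩
  refine ⟨RelIso.ofSurjective φ ?_, fun T => rfl⟩
  rintro ⟨S, ⟨M, rfl⟩, h0, h1⟩
  obtain ⟨T, hT, h2, h3⟩ := arc_classify hI M (dfs_le.1 h0) (dfs_le.1 h1)
  exact ⟨⟨T, hT⟩, Subtype.ext (Subset.antisymm (dfs_le.2 h3) (dfs_le.2 h2))⟩

end Pool.Agent.Work.MP_340ce7_lc
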